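import Pool.Agent.P.MP_1a637f_co.Lift

/-! Successors and connectivity of the real clock system. -/

namespace Pool.Agent.P.MP_1a637f_co

open Classical V

namespace Par

variable {c : Par}

/-- Shift with new letter `y`. -/
def nxt (c : Par) (X : ℕ → Bool) (y : Bool) : ℕ → Bool :=
  fun j => if j + 1 < c.n then X (j + 1) else y

theorem nxt_sh (X : ℕ → Bool) (y : Bool) : c.Sh X (c.nxt X y) := fun j hj => by simp [nxt, hj]

theorem nxt_last (X : ℕ → Bool) (y : Bool) : c.nxt X y (c.n - 1) = y := by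
  have := c.hn'
  simp only [nxt]
  rw [if_neg (by omega)]

theorem aa_succ {X X' : ℕ → Bool} {t : V c.L} (h : c.vv X' = sh 1 t) (ht : c.Φ t = c.aa X) :
    c.aa X' = c.aa X + 1 := by
  unfold aa at *
  rw [h, c.h.Φ_sh, ht]

theorem C_flip_ref {v : V c.L} {j : ℤ} (h : c.Φ v + j = -1) : c.C v (flip j v) := by
  apply c.h.C_free c.hun
  intro i hi
  rw [flip_apply, if_neg]
  intro hd
  exact hi (by rw [cast_eq_of_dvd c.hq hd, h])

theorem valid_ref {X X' : ℕ → Bool} (h : c.Sh X X') (ha : c.aa X = -1)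
    (hy : X' (c.n - 1) = !X 0) : c.aa X' = c.aa X + 1 ∧ c.φ X' = c.φ X + 1 := by
  have hC : c.C (c.vv X) (flip 0 (c.vv X)) := C_flip_ref (by simpa [aa] using ha)
  have hΦ : c.Φ (flip 0 (c.vv X)) = c.aa X := (c.h.C_Φ _ _ hC).symm
  have hs : (((c.σσ X).val : ℕ) : ZMod c.q) = -1 := (c.aa_eq X).symm.trans ha
  have hl : ∀ t, c.Φ t = c.aa X →
      c.lab ((c.σσ X).val + 1) (sh 1 t) = c.lab (c.σσ X).val t := by
    intro t ht
    rcases c.s.next _ t (ht.trans (c.aa_eq X)) with h1 | h1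
    · exact h1
    · exact absurd hs h1.2.1
  rcases vv_succ_or h with e | e
  · have h1 := aa_succ (X := X) e rfl
    exact ⟨h1, φ_succ h h1 (fun _ => hy) (by rw [e, hl _ rfl])⟩
  · have h1 := aa_succ (X := X) e hΦ
    refine ⟨h1, φ_succ h h1 (fun _ => hy) ?_⟩
    rw [e, hl _ hΦ]
    apply c.s.free _ _ _ (c.aa_eq X)
    intro i hi
    rw [flip_apply, if_neg]
    intro hd
    exact hi (by rw [cast_eq_of_dvd c.hq hd, hs]; simp)

theorem exists_y (X : ℕ → Bool) :
    (∃ y, c.vv (c.nxt X y) = sh 1 (c.vv X)) ∧ ∃ y, c.vv (c.nxt X y) = sh 1 (flip 0 (c.vv X)) := by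
  constructor
  · refine ⟨xor (X c.L) (!(xor (X 0) (X (c.n - c.L)))), vv_succ (nxt_sh _ _) ?_⟩
    rw [nxt_last]; cases X c.L <;> simp
  · refine ⟨xor (X c.L) (xor (X 0) (X (c.n - c.L))), vv_succ' (nxt_sh _ _) ?_⟩
    rw [nxt_last]; cases X c.L <;> simp

theorem exists_valid (X : ℕ → Bool) : ∃ y, (c.aa X = -1 → y = !X 0) ∧
    c.aa (c.nxt X y) = c.aa X + 1 ∧ c.φ (c.nxt X y) = c.φ X + 1 := by
  by_cases ha : c.aa X = -1
  · exact ⟨!X 0, fun _ => rfl, valid_ref (nxt_sh _ _) ha (nxt_last _ _)⟩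
  rcases c.s.next _ _ (c.aa_eq X) with h1 | ⟨h1, -, -, h2⟩
  · obtain ⟨y, e⟩ := (exists_y (c := c) X).1
    have h3 := aa_succ (X := X) e rfl
    exact ⟨y, fun h => absurd h ha, h3,
      φ_succ (nxt_sh _ _) h3 (fun h => absurd h ha) (by rw [e, h1])⟩
  · obtain ⟨y, e⟩ := (exists_y (c := c) X).2
    have h3 := aa_succ (X := X) e (h1.trans (c.aa_eq X).symm)
    exact ⟨y, fun h => absurd h ha, h3,
      φ_succ (nxt_sh _ _) h3 (fun h => absurd h ha) (by rw [e, h2])⟩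

theorem valid_both {X X' : ℕ → Bool} (hmid : ∀ j, 0 < j → j < c.n → X j = X' j)
    (hφ : c.φ X = c.φ X') (h0 : X 0 ≠ X' 0) : c.φ (c.nxt X (!X 0)) = c.φ X + 1 := by
  have hn := c.hn'
  have hL := c.h.Lpos
  by_cases ha : c.aa X = -1
  · exact (valid_ref (nxt_sh _ _) ha (nxt_last _ _)).2
  have hv : c.vv X' = flip 0 (c.vv X) := by
    have := win_flip hL (f := fun i => xor (X i) (X (i + (c.n - c.L))))
      (f' := fun i => xor (X' i) (X' (i + (c.n - c.L)))) hL
      (fun i hi hi0 => by rw [hmid i (by omega) (by omega), hmid _ (by omega) (by omega)])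
      (by
        rw [hmid (0 + (c.n - c.L)) (by omega) (by omega)]
        revert h0
        cases X 0 <;> cases X' 0 <;> simp)
    exact this
  obtain ⟨-, h1, -, h2⟩ := φ_inj hφ.symm
  rw [hv] at h2
  have h3 : c.Φ (flip 0 (c.vv X)) = c.aa X := by rw [← hv]; exact h1
  rcases vv_succ_or (nxt_sh (c := c) X (!X 0)) with e | e
  · refine φ_succ (nxt_sh _ _) (aa_succ e rfl) (fun h => absurd h ha) ?_
    rw [e]
    rcases c.s.next _ _ (c.aa_eq X) with h4 | ⟨-, -, h4, -⟩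
    · exact h4
    · exact h4.trans h2
  · refine φ_succ (nxt_sh _ _) (aa_succ e h3) (fun h => absurd h ha) ?_
    rw [e]
    rcases c.s.next _ _ (h3.trans (c.aa_eq X)) with h4 | ⟨-, -, h4, -⟩
    · exact h4.trans h2
    · rw [h4, V.flip_flip]

theorem succ : ∃ nx : (ℕ → Bool) → (ℕ → Bool), (∀ X, Step c.n c.φ X (nx X)) ∧
    ∀ X X', (∀ j, 0 < j → j < c.n → X j = X' j) → c.φ X = c.φ X' →
      nx X (c.n - 1) = nx X' (c.n - 1) → X 0 = X' 0 := by
  refine ⟨fun X => c.nxt X (if c.φ (c.nxt X (!X 0)) = c.φ X + 1 then !X 0 else X 0), ?_, ?_⟩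
  · intro X
    refine ⟨nxt_sh _ _, ?_⟩
    beta_reduce
    split_ifs with h
    · exact h
    · obtain ⟨y, -, -, hy⟩ := exists_valid (c := c) X
      by_cases e : y = X 0
      · rw [← e]; exact hy
      · rw [Bool.eq_not_iff.2 e] at hy
        exact absurd hy h
  · intro X X' hmid hφ h
    by_contra h0
    simp only [nxt_last] at h
    rw [if_pos (valid_both hmid hφ h0),
      if_pos (valid_both (fun j h1 h2 => (hmid j h1 h2).symm) hφ.symm (Ne.symm h0))] at h
    exact h0 (by simpa using h)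

/-- Connectivity relation. -/
def R (c : Par) : (ℕ → Bool) → (ℕ → Bool) → Prop := Relation.EqvGen (Step c.n c.φ)

theorem R.refl (X : ℕ → Bool) : c.R X X := Relation.EqvGen.refl _
theorem R.symm {X Y : ℕ → Bool} (h : c.R X Y) : c.R Y X := Relation.EqvGen.symm _ _ h
theorem R.trans {X Y Z : ℕ → Bool} (h : c.R X Y) (h' : c.R Y Z) : c.R X Z :=
  Relation.EqvGen.trans _ _ _ h h'
theorem R.step {X Y : ℕ → Bool} (h : c.Sh X Y) (h' : c.φ Y = c.φ X + 1) : c.R X Y :=
  Relation.EqvGen.rel _ _ ⟨h, h'⟩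

theorem R0 {X X' : ℕ → Bool} (hmid : ∀ j, 0 < j → j < c.n → X j = X' j)
    (hφ : c.φ X = c.φ X') : c.R X X' := by
  obtain ⟨y, -, -, hy⟩ := exists_valid (c := c) X
  refine (R.step (nxt_sh X y) hy).trans (R.step ?_ (hφ ▸ hy)).symm
  intro j hj
  rw [nxt_sh X y j hj, hmid _ (by omega) hj]

theorem R1 {X X' : ℕ → Bool} (h : ∀ j, j < c.n → X j = X' j) : c.R X X' :=
  R0 (fun j _ hj => h j hj) (junta X X' (fun j hj _ => (h j hj).symm)).symm

/-- Flip of one letter. -/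
def fl (j : ℕ) (X : ℕ → Bool) : ℕ → Bool := fun i => if i = j then !X i else X i

theorem fl_sh {X X' : ℕ → Bool} (h : c.Sh X X') (j : ℕ) : c.Sh (fl (j + 1) X) (fl j X') := by
  intro i hi
  simp [fl, h i hi]

theorem move (G : ℕ → (ℕ → Bool) → Prop) (h1 : ∀ j X, G j X → c.φ (fl j X) = c.φ X)
    (h2 : ∀ j X, G (j + 1) X → ∃ X', c.Sh X X' ∧ c.φ X' = c.φ X + 1 ∧ G j X') :
    ∀ j X, G j X → c.R X (fl j X) := by
  intro j
  induction j with
  | zero =>
    intro X hX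
    exact R0 (fun j hj _ => by simp [fl, hj.ne']) (h1 _ _ hX).symm
  | succ j ih =>
    intro X hX
    obtain ⟨X', a1, a2, a3⟩ := h2 j X hX
    exact ((R.step a1 a2).trans (ih X' a3)).trans
      (R.step (fl_sh a1 j) (by rw [h1 _ _ a3, h1 _ _ hX, a2])).symm

theorem φ_eq_ref {X X' : ℕ → Bool} (h : ∀ j : ℕ, c.aa X + j ≠ -1 → X' j = X j)
    (hχ : c.χ (c.yy (c.aa X) X') = c.χ (c.yy (c.aa X) X)) : c.φ X' = c.φ X := by
  have hv : ∀ i : ℤ, c.aa X + i ≠ -1 → (c.vv X').1 i = (c.vv X).1 i := by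
    apply agree_of_window (fun i => c.aa X + i ≠ -1)
    · intro i hi; rwa [cast_mod]
    · intro i hi hr
      rw [vv_apply _ hi, vv_apply _ hi, h i (by simpa using hr),
        h _ (by push_cast; rw [nL_cast]; simpa using hr)]
  refine φ_eq (c.h.C_Φ _ _ (c.h.C_free c.hun hv)).symm hχ
    (c.s.free _ _ _ (c.aa_eq X) (by rw [← c.aa_eq X]; exact hv))

theorem move_ref (j : ℕ) (X : ℕ → Bool) (hj : j < c.n) (ha : c.aa X + j = -1)
    (hχ : c.χ (c.yy (c.aa X) (fl j X)) = c.χ (c.yy (c.aa X) X)) :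
    c.R X (fl j X) ∧ c.φ (fl j X) = c.φ X := by
  have h1 : ∀ j X, (j < c.n ∧ c.aa X + j = -1 ∧
      c.χ (c.yy (c.aa X) (fl j X)) = c.χ (c.yy (c.aa X) X)) → c.φ (fl j X) = c.φ X := by
    rintro j X ⟨-, a2, a3⟩
    refine φ_eq_ref (fun i hi => ?_) a3
    simp only [fl]
    rw [if_neg]
    rintro rfl
    exact hi a2
  refine ⟨move (fun j X => j < c.n ∧ c.aa X + j = -1 ∧
    c.χ (c.yy (c.aa X) (fl j X)) = c.χ (c.yy (c.aa X) X)) h1 ?_ j X ⟨hj, ha, hχ⟩,
    h1 j X ⟨hj, ha, hχ⟩⟩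
  rintro j X ⟨a1, a2, a3⟩
  obtain ⟨y, b1, b2, b3⟩ := exists_valid (c := c) X
  refine ⟨c.nxt X y, nxt_sh _ _, b3, by omega, ?_, ?_⟩
  · rw [b2, ← a2]; push_cast; ring
  · rw [b2, yy_succ (nxt_sh X y) _ (by rwa [nxt_last]), yy_succ (fl_sh (nxt_sh X y) j) _ (by
      intro h
      simp only [fl]
      rw [if_neg (by omega), if_neg (by omega), nxt_last, b1 h]), a3]

theorem vv_fl {j : ℕ} (hj : j < c.L) (X : ℕ → Bool) : c.vv (fl j X) = flip j (c.vv X) := by
  have hn := c.hn'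
  apply win_flip _ hj
  · intro i hi hij
    simp only [fl]
    rw [if_neg hij, if_neg (by omega)]
  · simp only [fl]
    rw [if_pos trivial, if_neg (by omega)]
    simp

theorem yy_congr {X X' : ℕ → Bool} (a : ZMod c.q) (h : ∀ j : ℕ, a + j = -1 → X' j = X j) :
    c.yy a X' = c.yy a X :=
  win_congr _ (fun _ _ => h _ (c.pos_cast _ _))

theorem stretch_succ (X : ℕ → Bool) (hB : c.B ≤ (c.σσ X).val)
    (hs : (c.σσ X).val + 1 < c.q * c.Q) : ∃ X', c.Sh X X' ∧ c.φ X' = c.φ X + 1 ∧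
      c.aa X' = c.aa X + 1 ∧ (c.σσ X').val = (c.σσ X).val + 1 ∧
      (c.vv X' = sh 1 (c.vv X) ∨ (c.aa X = -1 ∧ c.vv X' = sh 1 (flip 0 (c.vv X)))) := by
  have hne : c.σσ X ≠ -1 := by rw [Ne, eq_neg_one_iff]; omega
  by_cases ha : c.aa X = -1
  · obtain ⟨h1, h2⟩ := valid_ref (nxt_sh X (!X 0)) ha (nxt_last _ _)
    refine ⟨_, nxt_sh _ _, h2, h1, ?_, ?_⟩
    · rw [σσ_succ (nxt_sh _ _) h1 (fun _ => nxt_last _ _), val_succ_of_ne hne]
    · rcases vv_succ_or (nxt_sh (c := c) X (!X 0)) with e | e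
      · exact Or.inl e
      · exact Or.inr ⟨ha, e⟩
  · obtain ⟨y, e⟩ := (exists_y (c := c) X).1
    have h3 := aa_succ (X := X) e rfl
    refine ⟨_, nxt_sh X y, φ_succ (nxt_sh _ _) h3 (fun h => absurd h ha) ?_, h3, ?_, Or.inl e⟩
    · rw [e]; exact c.s.stay _ hB _ (c.aa_eq X)
    · rw [σσ_succ (nxt_sh _ _) h3 (fun h => absurd h ha), val_succ_of_ne hne]

theorem move_v (j : ℕ) (X : ℕ → Bool) (hj : j < c.L) (hB : c.B ≤ (c.σσ X).val)
    (hs : (c.σσ X).val + j < c.q * c.Q) (ha : c.aa X + j ≠ -1)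
    (hC : c.C (c.vv X) (flip j (c.vv X))) : c.R X (fl j X) ∧ c.φ (fl j X) = c.φ X := by
  have h1 : ∀ j X, (j < c.L ∧ c.B ≤ (c.σσ X).val ∧ (c.σσ X).val + j < c.q * c.Q ∧
      c.aa X + j ≠ -1 ∧ c.C (c.vv X) (flip j (c.vv X))) → c.φ (fl j X) = c.φ X := by
    rintro j X ⟨a1, a2, -, a4, a5⟩
    rw [← vv_fl a1] at a5
    have e : c.aa (fl j X) = c.aa X := (c.h.C_Φ _ _ a5).symm
    refine φ_eq e ?_ ((c.s.cell _ a2 _ _ (c.aa_eq X) (e.trans (c.aa_eq X))).2 a5).symm
    rw [yy_congr]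
    intro i hi
    simp only [fl]
    rw [if_neg]
    rintro rfl
    exact a4 hi
  refine ⟨move (fun j X => j < c.L ∧ c.B ≤ (c.σσ X).val ∧ (c.σσ X).val + j < c.q * c.Q ∧
      c.aa X + j ≠ -1 ∧ c.C (c.vv X) (flip j (c.vv X))) h1 ?_ j X ⟨hj, hB, hs, ha, hC⟩,
    h1 j X ⟨hj, hB, hs, ha, hC⟩⟩
  rintro j X ⟨a1, a2, a3, a4, a5⟩
  obtain ⟨X', b1, b2, b3, b4, b5⟩ := stretch_succ X a2 (by omega)
  refine ⟨X', b1, b2, by omega, by omega, by omega, ?_, ?_⟩
  · rw [b3]; push_cast at a4; rwa [add_assoc, add_comm 1]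
  · have e : ∀ t : V c.L, flip j (sh 1 t) = sh 1 (flip ((j + 1 : ℕ) : ℤ) t) := by
      intro t; rw [sh_flip]; simp
    rcases b5 with b5 | ⟨b6, b5⟩
    · rw [b5, e]; exact c.h.C_sh _ _ _ a5
    · rw [b5, e]
      apply c.h.C_sh
      rw [flip_comm]
      refine c.h.C_trans _ _ _ (c.h.C_symm _ _ (C_flip_ref (by simpa [aa] using b6)))
        (c.h.C_trans _ _ _ a5 (C_flip_ref ?_))
      rw [← c.h.C_Φ _ _ a5]; simpa [aa] using b6

theorem vmove (X : ℕ → Bool) (hB : c.B ≤ (c.σσ X).val) (hs : (c.σσ X).val + c.L ≤ c.q * c.Q)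
    (w : V c.L) (hw : c.C (c.vv X) w) : ∃ X2, c.R X X2 ∧ c.φ X2 = c.φ X ∧
      (∀ i : ℕ, (c.L ≤ i ∨ c.aa X + i = -1) → X2 i = X i) ∧
      ∀ i : ℤ, c.aa X + i ≠ -1 → (c.vv X2).1 i = w.1 i := by
  have hL := c.h.Lpos
  have hp := c.h.conn_C (c.vv X) _ _ (c.h.C_refl _) hw
  clear hw
  induction hp with
  | refl => exact ⟨X, R.refl _, rfl, fun _ _ => rfl, fun _ _ => rfl⟩
  | @tail w w' _ h' ih =>
    obtain ⟨h1, h2, j, rfl⟩ := h'
    obtain ⟨X2, a1, a2, a3, a4⟩ := ih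
    by_cases hj : c.aa X + j = -1
    · refine ⟨X2, a1, a2, a3, fun i hi => ?_⟩
      rw [a4 i hi, flip_apply, if_neg]
      intro hd
      exact hi (by rw [cast_eq_of_dvd c.hq hd, hj])
    · have h0 : 0 ≤ j % c.L := Int.emod_nonneg _ (by omega)
      have h1' : j % c.L < c.L := Int.emod_lt_of_pos _ (by omega)
      obtain ⟨j', hj'⟩ : ∃ j' : ℕ, (j' : ℤ) = j % c.L := ⟨_, Int.toNat_of_nonneg h0⟩
      have hfl : ∀ t : V c.L, flip j' t = flip j t :=
        fun t => flip_congr (by rw [hj', Int.emod_def]; simp) t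
      have hjc : (j' : ZMod c.q) = j := by rw [← cast_mod j, ← hj']; simp
      obtain ⟨b1, b2, -, -⟩ := φ_inj a2
      have hΦw : c.Φ w = c.aa X := (c.h.C_Φ _ _ h1).symm
      have hΦw' : c.Φ (flip j w) = c.aa X := (c.h.C_Φ _ _ h2).symm
      have a5 : ∀ i : ℤ, c.aa X + i ≠ -1 → (flip j (c.vv X2)).1 i = (flip j w).1 i := by
        intro i hi
        rw [flip_apply, flip_apply, a4 i hi]
      have c1 : c.C w (c.vv X2) := c.h.C_free c.hun (by rwa [hΦw])
      have c2 : c.C (flip j w) (flip j (c.vv X2)) := c.h.C_free c.hun (by rwa [hΦw'])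
      obtain ⟨d1, d2⟩ := move_v (c := c) j' X2 (by omega) (by rwa [b1]) (by rw [b1]; omega)
        (by rwa [b2, hjc]) (by
          rw [hfl]
          exact c.h.C_trans _ _ _ (c.h.C_symm _ _ c1)
            (c.h.C_trans _ _ _ (c.h.C_trans _ _ _ (c.h.C_symm _ _ h1) h2) c2))
      refine ⟨fl j' X2, a1.trans d1, d2.trans a2, fun i hi => ?_, ?_⟩
      · simp only [fl]
        rw [if_neg, a3 i hi]
        rintro rfl
        rcases hi with hi | hi
        · omega
        · exact hj (by rwa [← hjc])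
      · rw [vv_fl (by omega), hfl]; exact a5

/-- The move that keeps the virtual window. -/
def dl (c : Par) (j : ℕ) (X : ℕ → Bool) : ℕ → Bool :=
  fun i => if i = j ∨ i + (c.n - c.L) = j then !X i else X i

theorem φ_dl {j : ℕ} (h1 : c.L ≤ j) (h2 : j < c.n) (X : ℕ → Bool) (ha : c.aa X + j ≠ -1) :
    c.vv (c.dl j X) = c.vv X ∧ c.φ (c.dl j X) = c.φ X ∧
      ∀ i : ℕ, c.aa X + i = -1 → c.dl j X i = X i := by
  have hn := c.hn'
  have hv : c.vv (c.dl j X) = c.vv X := by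
    apply win_congr
    intro i hi
    simp only [dl]
    by_cases e : i + (c.n - c.L) = j
    · rw [if_pos (Or.inr e), if_pos (Or.inl e)]; simp
    · rw [if_neg (by omega), if_neg (by omega)]
  have hr : ∀ i : ℕ, c.aa X + i = -1 → c.dl j X i = X i := by
    intro i hi
    simp only [dl]
    rw [if_neg]
    rintro (rfl | rfl)
    · exact ha hi
    · apply ha; push_cast; rw [nL_cast]; simpa using hi
  exact ⟨hv, φ_eq (by unfold aa; rw [hv]) (by rw [yy_congr _ hr]) (by rw [hv]), hr⟩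

/-- The move `dl j` is available at middle clock `s`. -/
def D (c : Par) (s : ZMod (c.q * c.Q)) (j : ℕ) : Prop :=
  ∀ X, c.σσ X = s → c.aa X + j ≠ -1 → c.R X (c.dl j X)

theorem D_down {s : ZMod (c.q * c.Q)} {j j' : ℕ} (h1 : c.L ≤ j) (h2 : j < c.n) (h1' : c.L ≤ j')
    (h2' : j' < c.n) (hj : j = j' + 1 ∨ (j = c.L ∧ j' = c.n - 1)) (h : c.D (s + 1) j') :
    c.D s j := by
  have hn := c.hn'
  have hL := c.h.Lpos
  intro X hs ha
  obtain ⟨y, b1, b2, b3⟩ := exists_valid (c := c) X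
  have ha' : c.aa (c.nxt X y) + j' ≠ -1 := by
    rw [b2]
    rcases hj with rfl | ⟨rfl, rfl⟩
    · push_cast at ha; rwa [add_assoc, add_comm 1]
    · rw [Nat.cast_sub (by omega), n_cast]
      rw [L_cast] at ha
      simpa using ha
  have := h (c.nxt X y) (by rw [σσ_succ (nxt_sh _ _) b2 (by rwa [nxt_last]), hs]) ha'
  refine ((R.step (nxt_sh X y) b3).trans this).trans (R.step ?_ ?_).symm
  · intro i hi
    simp only [dl]
    rw [nxt_sh X y i hi]
    have : (i = j' ∨ i + (c.n - c.L) = j') ↔ (i + 1 = j ∨ i + 1 + (c.n - c.L) = j) := by omega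
    simp only [this]
  · rw [(φ_dl h1' h2' _ ha').2.1, (φ_dl h1 h2 _ ha).2.1, b3]

theorem D_one (m : ℕ) (hm : c.L + m < c.n) (s : ZMod (c.q * c.Q)) (h : c.D (s + m) c.L) :
    c.D s (c.L + m) := by
  induction m generalizing s with
  | zero => simpa using h
  | succ m ih =>
    refine D_down (j' := c.L + m) (by omega) hm (by omega) (by omega) (Or.inl (by omega))
      (ih (by omega) _ ?_)
    convert h using 1
    push_cast; ring

theorem D_two (s : ZMod (c.q * c.Q)) (h : c.D (s - c.L) c.L) : c.D s c.L := by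
  have hn := c.hn'
  have hL := c.h.Lpos
  refine D_down (j' := c.n - 1) le_rfl (by omega) (by omega) (by omega) (Or.inr ⟨rfl, rfl⟩) ?_
  have := D_one (c.n - 1 - c.L) (by omega) (s + 1) (by
    convert h using 1
    have hn0 : ((c.n : ℕ) : ZMod (c.q * c.Q)) = 0 :=
      (ZMod.natCast_eq_zero_iff _ _).2 ((dvd_mul_right _ _).trans c.hp)
    rw [Nat.cast_sub (by omega), Nat.cast_sub (by omega), hn0]
    push_cast; ring)
  rwa [show c.L + (c.n - 1 - c.L) = c.n - 1 by omega] at this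

theorem D_base (s : ZMod (c.q * c.Q)) (h1 : c.B ≤ s.val) (h2 : s.val + 2 * c.L ≤ c.q * c.Q) :
    c.D s c.L := by
  have hn := c.hn'
  have hL := c.h.Lpos
  rintro X rfl ha
  obtain ⟨hv, hφ, hr⟩ := φ_dl le_rfl (by omega) X ha
  obtain ⟨w, w1, w2⟩ := c.h.flippable (c.vv X) 0
  obtain ⟨e1, e2, -, -⟩ := φ_inj hφ
  obtain ⟨X1, a1, a2, a3, a4⟩ := vmove X h1 (by omega) w w1
  obtain ⟨X2, b1, -, b3, b4⟩ := vmove (c.dl c.L X) (by rwa [e1]) (by rw [e1]; omega) w (by rwa [hv])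
  rw [e2] at b3 b4
  obtain ⟨f1, f2, -, -⟩ := φ_inj a2
  have hdl : ∀ i, c.dl c.L X i = fl c.L X i := by
    intro i
    simp only [dl, fl]
    have : (i = c.L ∨ i + (c.n - c.L) = c.L) ↔ i = c.L := by omega
    simp only [this]
  have hX2 : ∀ i, i < c.n → fl c.L X1 i = X2 i := by
    have hbig : ∀ i, c.L ≤ i → fl c.L X1 i = X2 i := by
      intro i hi
      rw [b3 i (Or.inl hi), hdl]
      simp only [fl]
      rw [a3 i (Or.inl hi)]
    intro i _
    by_cases hi : c.L ≤ i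
    · exact hbig i hi
    have e : fl c.L X1 i = X1 i := by simp only [fl]; rw [if_neg (by omega)]
    rw [e]
    by_cases hr' : c.aa X + i = -1
    · rw [b3 i (Or.inr hr'), hr i hr', a3 i (Or.inr hr')]
    · have := (a4 i (by simpa using hr')).trans (b4 i (by simpa using hr')).symm
      rw [vv_apply _ (by omega), vv_apply _ (by omega), ← hbig (i + (c.n - c.L)) (by omega)] at this
      simp only [fl] at this
      rw [if_neg (by omega)] at this
      simpa using this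
  refine (a1.trans ?_).trans ((R1 hX2).trans b1.symm)
  -- one step, then a flip in the virtual window
  have ha0 : c.aa X ≠ -1 := by rw [L_cast] at ha; simpa using ha
  obtain ⟨X', g1, g2, g3, g4, g5⟩ := stretch_succ X1 (by rwa [f1]) (by rw [f1]; omega)
  have g6 : c.vv X' = sh 1 (c.vv X1) := by
    rcases g5 with g5 | ⟨g5, -⟩
    · exact g5
    · exact absurd (f2 ▸ g5) ha0
  have hΦw : c.Φ w = c.aa X := (c.h.C_Φ _ _ w1).symm
  have hΦw' : c.Φ (flip 0 w) = c.aa X := (c.h.C_Φ _ _ w2).symm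
  have c1 : c.C w (c.vv X1) := c.h.C_free c.hun (by rwa [hΦw])
  have c2 : c.C (flip 0 w) (flip 0 (c.vv X1)) := c.h.C_free c.hun (by
    rw [hΦw']
    intro i hi
    rw [flip_apply, flip_apply, a4 i hi])
  have c3 : c.C (c.vv X1) (flip 0 (c.vv X1)) := c.h.C_trans _ _ _ (c.h.C_symm _ _ c1)
    (c.h.C_trans _ _ _ (c.h.C_trans _ _ _ (c.h.C_symm _ _ w1) w2) c2)
  obtain ⟨m, hm⟩ : ∃ m, c.L = m + 1 := ⟨c.L - 1, by omega⟩
  obtain ⟨d1, d2⟩ := move_v (c := c) m X' (by omega) (by rw [g4, f1]; omega) (by rw [g4, f1]; omega)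
    (by rw [g3, f2]; rw [hm] at ha; push_cast at ha; rwa [add_assoc, add_comm 1]) (by
      have := c.h.C_sh 1 _ _ c3
      rw [sh_flip] at this
      rw [g6, flip_congr (j := 0 - 1) ⟨1, by omega⟩]
      exact this)
  have hφ1 : c.φ (fl c.L X1) = c.φ X1 := by
    have := (φ_dl (c := c) le_rfl (by omega) X1 (by rwa [f2])).2.1
    rw [← this]
    congr 1
    funext i
    simp only [dl, fl]
    have : (i = c.L ∨ i + (c.n - c.L) = c.L) ↔ i = c.L := by omega
    simp only [this]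
  refine ((R.step g1 g2).trans d1).trans (R.step ?_ ?_).symm
  · rw [hm]; exact fl_sh g1 m
  · rw [d2, g2, hφ1]

theorem D_all (s : ZMod (c.q * c.Q)) {j : ℕ} (h1 : c.L ≤ j) (h2 : j < c.n) : c.D s j := by
  have hL := c.h.Lpos
  have hB := c.hB
  have key : ∀ (k : ℕ) (s : ZMod (c.q * c.Q)), c.D (s - (k * c.L : ℕ)) c.L → c.D s c.L := by
    intro k
    induction k with
    | zero => intro s h; simpa using h
    | succ k ih =>
      intro s h
      apply D_two
      apply ih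
      convert h using 1
      push_cast; ring
  have all : ∀ s : ZMod (c.q * c.Q), c.D s c.L := by
    intro s
    have hs := ZMod.val_lt s
    obtain ⟨k, t, hk, ht⟩ : ∃ k t, s.val + c.q * c.Q - c.B = k * c.L + t ∧ t < c.L :=
      ⟨_, _, (Nat.div_add_mod' _ c.L).symm, Nat.mod_lt _ hL⟩
    apply key k
    have e : s - (k * c.L : ℕ) = ((c.B + t : ℕ) : ZMod (c.q * c.Q)) := by
      rw [sub_eq_iff_eq_add, ← Nat.cast_add, show c.B + t + k * c.L = s.val + c.q * c.Q by omega,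
        Nat.cast_add, ZMod.natCast_self, ZMod.natCast_zmod_val, add_zero]
    have e' : (s - (k * c.L : ℕ)).val = c.B + t := by
      rw [e, ZMod.val_natCast_of_lt (by omega)]
    exact D_base _ (by omega) (by omega)
  have := D_one (j - c.L) (by omega) s (all _)
  rwa [show c.L + (j - c.L) = j by omega] at this

theorem R_same (X X' : ℕ → Bool) (hφ : c.φ X' = c.φ X) (hB : (c.σσ X).val = c.B) : c.R X X' := by
  have hn := c.hn'
  have hL := c.h.Lpos
  have hM := c.Mpos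
  have hB' := c.hB
  obtain ⟨e1, e2, e3, e4⟩ := φ_inj hφ
  -- align the counter letters
  have s1 : ∀ w, Path (fun y => c.χ y = c.χ (c.yy (c.aa X) X)) (c.yy (c.aa X) X) w →
      ∃ X1, c.R X X1 ∧ c.φ X1 = c.φ X ∧ c.yy (c.aa X) X1 = w := by
    intro w hp
    induction hp with
    | refl => exact ⟨X, R.refl _, rfl, rfl⟩
    | @tail w w' _ h' ih =>
      obtain ⟨h1, h2, j, rfl⟩ := h'
      obtain ⟨X1, a1, a2, a3⟩ := ih
      have h0 : 0 ≤ j % c.M := Int.emod_nonneg _ (by omega)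
      have h1' : j % c.M < c.M := Int.emod_lt_of_pos _ (by omega)
      obtain ⟨j', hj'⟩ : ∃ j' : ℕ, (j' : ℤ) = j % c.M := ⟨_, Int.toNat_of_nonneg h0⟩
      have hy : c.yy (c.aa X) (fl (c.j0 (c.aa X) + c.q * j') X1) = flip j w := by
        rw [← a3, ← flip_congr (i := j') (by rw [hj', Int.emod_def]; simp)]
        apply win_flip _ (by omega)
        · intro i _ hi
          simp only [fl]
          rw [if_neg]
          intro h
          exact hi (Nat.eq_of_mul_eq_mul_left c.h.qpos (by omega))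
        · simp [fl]
      obtain ⟨-, b2, -, -⟩ := φ_inj a2
      obtain ⟨d1, d2⟩ := move_ref (c.j0 (c.aa X) + c.q * j') X1 (c.pos_lt _ (by omega))
        (by rw [b2]; exact c.pos_cast _ _) (by rw [b2, hy, a3, h1, h2])
      exact ⟨_, a1.trans d1, d2.trans a2, hy⟩
  obtain ⟨X1, a1, a2, a3⟩ := s1 _ (c.χ_conn _ _ _ rfl e3)
  have href : ∀ j, j < c.n → c.aa X + j = -1 → X1 j = X' j := by
    intro j hj ha
    obtain ⟨i, hi, rfl⟩ := c.exists_pos _ hj ha
    have := congrFun (congrArg V.val a3) i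
    unfold yy at this
    rwa [win_apply _ _ hi, win_apply _ _ hi] at this
  -- align the letters outside the virtual window
  have s2 : ∀ k, c.L + k ≤ c.n → ∃ X2, c.R X X2 ∧ c.φ X2 = c.φ X ∧
      ∀ j, j < c.n → (c.aa X + j = -1 ∨ (c.L ≤ j ∧ j < c.L + k)) → X2 j = X' j := by
    intro k
    induction k with
    | zero => exact fun _ => ⟨X1, a1, a2, fun j hj h => href j hj (h.resolve_right (by omega))⟩
    | succ k ih =>
      intro hk
      obtain ⟨X2, b1, b2, b3⟩ := ih (by omega)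
      by_cases hx : X2 (c.L + k) = X' (c.L + k)
      · refine ⟨X2, b1, b2, fun j hj h => ?_⟩
        by_cases e : j = c.L + k
        · rw [e, hx]
        · exact b3 j hj (h.imp_right (by omega))
      · obtain ⟨-, f2, -, -⟩ := φ_inj b2
        have ha : c.aa X2 + (c.L + k : ℕ) ≠ -1 :=
          fun h => hx (b3 _ (by omega) (Or.inl (f2 ▸ h)))
        obtain ⟨-, g2, g3⟩ := φ_dl (j := c.L + k) (by omega) (by omega) X2 ha
        refine ⟨_, b1.trans (D_all _ (by omega) (by omega) X2 rfl ha), g2.trans b2,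
          fun j hj h => ?_⟩
        rcases h with h | h
        · rw [g3 j (f2 ▸ h), b3 j hj (Or.inl h)]
        · simp only [dl]
          by_cases e : j = c.L + k
          · rw [if_pos (Or.inl e), e]
            revert hx
            cases X2 (c.L + k) <;> cases X' (c.L + k) <;> simp
          · rw [if_neg (by omega), b3 j hj (Or.inr (by omega))]
  obtain ⟨X2, b1, b2, b3⟩ := s2 (c.n - c.L) (by omega)
  obtain ⟨f1, f2, -, f4⟩ := φ_inj b2
  have hC : c.C (c.vv X2) (c.vv X') :=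
    (c.s.cell _ hB.ge _ _ (f2.trans (c.aa_eq X)) (e2.trans (c.aa_eq X))).1 (f4.trans e4.symm)
  obtain ⟨X3, d1, -, d3, d4⟩ := vmove X2 (by rw [f1]; omega) (by rw [f1]; omega) _ hC
  rw [f2] at d3 d4
  refine (b1.trans d1).trans (R1 ?_)
  have hbig : ∀ i, c.L ≤ i → i < c.n → X3 i = X' i := fun i hi hi' => by
    rw [d3 i (Or.inl hi), b3 i hi' (Or.inr (by omega))]
  intro i hi
  by_cases h1 : c.L ≤ i
  · exact hbig i h1 hi
  by_cases h2 : c.aa X + i = -1
  · rw [d3 i (Or.inr h2), b3 i hi (Or.inl h2)]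
  · have := d4 i (by simpa using h2)
    rw [vv_apply _ (by omega), vv_apply _ (by omega),
      hbig (i + (c.n - c.L)) (by omega) (by omega)] at this
    simpa using this

theorem R_phase (X : ℕ → Bool) (r : ZMod (c.q * c.Q * c.K)) : ∃ X1, c.R X X1 ∧ c.φ X1 = r := by
  have : ∀ m : ℕ, ∃ X1, c.R X X1 ∧ c.φ X1 = c.φ X + m := by
    intro m
    induction m with
    | zero => exact ⟨X, R.refl _, by simp⟩
    | succ m ih =>
      obtain ⟨X1, a1, a2⟩ := ih
      obtain ⟨y, -, -, hy⟩ := exists_valid (c := c) X1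
      exact ⟨_, a1.trans (R.step (nxt_sh X1 y) hy), by rw [hy, a2]; push_cast; ring⟩
  obtain ⟨X1, a1, a2⟩ := this (r - c.φ X).val
  exact ⟨X1, a1, by rw [a2]; simp⟩

theorem good (c : Par) : Good c.n c.φ c.S where
  junta := junta
  succ := succ
  conn := by
    intro X X'
    have hB := c.hB
    have hL := c.h.Lpos
    obtain ⟨X1, a1, a2⟩ := R_phase X (comb (c.B : ZMod (c.q * c.Q)) (0 : ZMod c.K))
    obtain ⟨X2, b1, b2⟩ := R_phase X' (comb (c.B : ZMod (c.q * c.Q)) (0 : ZMod c.K))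
    refine (a1.trans (R_same X1 X2 (b2.trans a2.symm) ?_)).trans b1.symm
    rw [(comb_inj a2).1, ZMod.val_natCast_of_lt (by omega)]

end Par

end Pool.Agent.P.MP_1a637f_co
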