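import Mathlib

/-! Antiperiodic binary sequences (words under the complementing rotation). -/

namespace Pool.Agent.P.MP_1a637f_co

open Classical

/-- Antiperiodic binary sequences: words of length `L` under the complementing rotation. -/
structure V (L : ℕ) : Type where
  val : ℤ → Bool
  anti : ∀ i, val (i + L) = !val i

namespace V

variable {L : ℕ}

theorem ext' {x y : V L} (h : ∀ i, x.1 i = y.1 i) : x = y := by
  cases x; cases y; congr; exact funext h

theorem add_mul_iff {x y : V L} (i k : ℤ) :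
    x.1 (i + k * L) = y.1 (i + k * L) ↔ x.1 i = y.1 i := by
  induction k using Int.induction_on with
  | zero => simp
  | succ k ih =>
    rw [show i + ((k : ℤ) + 1) * L = (i + k * L) + L by ring, x.2, y.2, ← ih]
    simp
  | pred k ih =>
    rw [← ih, show i + (-(k : ℤ)) * L = (i + (-(k : ℤ) - 1) * L) + L by ring, x.2, y.2]
    simp

theorem mod_iff {x y : V L} (i : ℤ) : x.1 (i % L) = y.1 (i % L) ↔ x.1 i = y.1 i := by
  rw [← add_mul_iff (i % L) (i / L), mul_comm, Int.emod_add_mul_ediv]

theorem ext_window (hL : 0 < L) {x y : V L} (h : ∀ i : ℕ, i < L → x.1 i = y.1 i) : x = y := by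
  apply ext'
  intro i
  rw [← mod_iff]
  have h0 : 0 ≤ i % L := Int.emod_nonneg _ (by omega)
  have h1 : i % L < L := Int.emod_lt_of_pos _ (by omega)
  have := h (i % L).toNat (by omega)
  rwa [Int.toNat_of_nonneg h0] at this

/-- The antiperiodic extension of the window `f 0, …, f (L-1)`. -/
def win (L : ℕ) (hL : 0 < L) (f : ℕ → Bool) : V L :=
  ⟨fun i => xor (f (i % L).toNat) (decide (Odd (i / L))), by
    intro i
    have h : (L : ℤ) ≠ 0 := by omega
    rw [Int.add_emod_right, Int.add_ediv_of_dvd_right (dvd_refl _), Int.ediv_self h]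
    by_cases ho : Odd (i / L)
    · have : ¬ Odd (i / L + 1) := by rw [Int.odd_iff] at ho ⊢; omega
      simp [ho, this]
    · have : Odd (i / L + 1) := by rw [Int.odd_iff] at ho ⊢; omega
      simp [ho, this]⟩

theorem win_apply (hL : 0 < L) (f : ℕ → Bool) {i : ℕ} (hi : i < L) : (win L hL f).1 i = f i := by
  have h1 : (i : ℤ) % L = i := Int.emod_eq_of_lt (by omega) (by omega)
  have h2 : (i : ℤ) / L = 0 := Int.ediv_eq_zero_of_lt (by omega) (by omega)
  simp [win, h1, h2]

/-- Words of length `L`. -/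
noncomputable def equivFin (hL : 0 < L) : V L ≃ (Fin L → Bool) where
  toFun x := fun i => x.1 (i : ℕ)
  invFun f := win L hL (fun i => if h : i < L then f ⟨i, h⟩ else false)
  left_inv x := ext_window hL (fun i hi => by rw [win_apply hL _ hi]; simp [hi])
  right_inv f := by
    funext i
    beta_reduce
    rw [win_apply hL _ i.2]; simp

theorem finite (hL : 0 < L) : Finite (V L) := Finite.of_equiv _ (equivFin hL).symm

theorem card (hL : 0 < L) : Nat.card (V L) = 2 ^ L := by
  rw [Nat.card_congr (equivFin hL)]; simp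

/-- Shift by `k`. -/
def sh (k : ℤ) (x : V L) : V L :=
  ⟨fun i => x.1 (i + k), fun i => by rw [← x.2]; exact congrArg x.1 (by ring)⟩

@[simp] theorem sh_apply (k : ℤ) (x : V L) (i : ℤ) : (sh k x).1 i = x.1 (i + k) := rfl

theorem sh_sh (k l : ℤ) (x : V L) : sh k (sh l x) = sh (k + l) x :=
  ext' (fun i => by simp [add_assoc])

@[simp] theorem sh_zero (x : V L) : sh 0 x = x := ext' (fun i => by simp)

/-- Flip of the coordinate `j` (mod `L`). -/
def flip (j : ℤ) (x : V L) : V L :=
  ⟨fun i => if (L : ℤ) ∣ i - j then !x.1 i else x.1 i, fun i => by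
    have : ((L : ℤ) ∣ i + L - j) ↔ (L : ℤ) ∣ i - j := by
      rw [show i + L - j = (i - j) + L by ring]
      exact dvd_add_left (dvd_refl _)
    simp only [this, x.2]
    split_ifs <;> rfl⟩

theorem flip_apply (j : ℤ) (x : V L) (i : ℤ) :
    (flip j x).1 i = if (L : ℤ) ∣ i - j then !x.1 i else x.1 i := rfl

@[simp] theorem flip_flip (j : ℤ) (x : V L) : flip j (flip j x) = x :=
  ext' (fun i => by simp only [flip_apply]; split_ifs <;> simp)

theorem flip_comm (i j : ℤ) (x : V L) : flip i (flip j x) = flip j (flip i x) :=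
  ext' (fun k => by simp only [flip_apply]; split_ifs <;> rfl)

theorem sh_flip (k j : ℤ) (x : V L) : sh k (flip j x) = flip (j - k) (sh k x) :=
  ext' (fun i => by
    simp only [flip_apply, sh_apply]
    rw [show i + k - j = i - (j - k) by ring])

theorem flip_congr {i j : ℤ} (h : (L : ℤ) ∣ i - j) (x : V L) : flip i x = flip j x :=
  ext' (fun k => by
    simp only [flip_apply]
    have : ((L : ℤ) ∣ k - i) ↔ (L : ℤ) ∣ k - j := by
      rw [show k - j = (k - i) + (i - j) by ring]
      exact (dvd_add_left h).symm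
    simp only [this])

theorem flip_ne (j : ℤ) (x : V L) : flip j x ≠ x := by
  intro h
  have := congrFun (congrArg V.val h) j
  simp [flip_apply] at this

theorem win_succ (hL : 0 < L) {f f' : ℕ → Bool} (h : ∀ i, i + 1 < L → f' i = f (i + 1))
    (h' : f' (L - 1) = !f 0) : win L hL f' = sh 1 (win L hL f) := by
  apply ext_window hL
  intro i hi
  rw [win_apply hL _ hi, sh_apply]
  by_cases hi' : i + 1 < L
  · rw [h i hi', ← win_apply hL f hi']; push_cast; rfl
  · have : i = L - 1 := by omega
    subst this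
    rw [h', show ((L - 1 : ℕ) : ℤ) + 1 = ((0 : ℕ) : ℤ) + L by omega, (win L hL f).2,
      win_apply hL _ hL]

theorem win_flip (hL : 0 < L) {f f' : ℕ → Bool} {j : ℕ} (hj : j < L)
    (h : ∀ i, i < L → i ≠ j → f' i = f i) (h' : f' j = !f j) :
    win L hL f' = flip j (win L hL f) := by
  apply ext_window hL
  intro i hi
  rw [win_apply hL _ hi, flip_apply, win_apply hL _ hi]
  by_cases hij : i = j
  · subst hij; simp [h']
  · rw [if_neg, h i hi hij]
    intro hd
    have := Int.eq_zero_of_abs_lt_dvd hd (by rw [abs_lt]; constructor <;> omega)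
    omega

theorem win_congr (hL : 0 < L) {f f' : ℕ → Bool} (h : ∀ i, i < L → f' i = f i) :
    win L hL f' = win L hL f :=
  ext_window hL (fun i hi => by rw [win_apply hL _ hi, win_apply hL _ hi, h i hi])

theorem win_succ' (hL : 0 < L) {f f' : ℕ → Bool} (h : ∀ i, i + 1 < L → f' i = f (i + 1))
    (h' : f' (L - 1) = f 0) : win L hL f' = sh 1 (flip 0 (win L hL f)) := by
  have := win_flip hL (f := f) (f' := fun i => if i = 0 then !f 0 else f i) hL
    (fun i _ hi => by simp [hi]) (by simp)
  rw [Nat.cast_zero] at this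
  rw [← this]
  apply win_succ hL
  · intro i hi; simp [h i hi]
  · simp [h']

/-- The subsequence of positions `≡ c (mod 4)`. -/
def blk (c : ℤ) (x : V (4 * L)) : V L :=
  ⟨fun i => x.1 (4 * i + c), fun i => by
    rw [← x.2]; exact congrArg x.1 (by push_cast; ring)⟩

@[simp] theorem blk_apply (c : ℤ) (x : V (4 * L)) (i : ℤ) : (blk c x).1 i = x.1 (4 * i + c) := rfl

theorem blk_sh (c k : ℤ) (x : V (4 * L)) : blk c (sh k x) = blk (c + k) x :=
  ext' (fun i => by simp [add_assoc])

theorem blk_add (c k : ℤ) (x : V (4 * L)) : blk (c + 4 * k) x = sh k (blk c x) :=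
  ext' (fun i => by simp only [blk_apply, sh_apply]; exact congrArg x.1 (by ring))

/-- Replace the block `c` by `z`. -/
def setBlk (c : ℤ) (x : V (4 * L)) (z : V L) : V (4 * L) :=
  ⟨fun i => if (4 : ℤ) ∣ i - c then z.1 ((i - c) / 4) else x.1 i, fun i => by
    have : ((4 : ℤ) ∣ i + (4 * L : ℕ) - c) ↔ (4 : ℤ) ∣ i - c := by
      push_cast; omega
    simp only [this]
    split_ifs with h
    · rw [← z.2]; exact congrArg z.1 (by push_cast; omega)
    · exact x.2 i⟩

theorem setBlk_apply (c : ℤ) (x : V (4 * L)) (z : V L) (i : ℤ) :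
    (setBlk c x z).1 i = if (4 : ℤ) ∣ i - c then z.1 ((i - c) / 4) else x.1 i := rfl

theorem blk_setBlk (c : ℤ) (x : V (4 * L)) (z : V L) : blk c (setBlk c x z) = z :=
  ext' (fun i => by
    rw [blk_apply, setBlk_apply, if_pos (by omega)]; exact congrArg z.1 (by omega))

theorem blk_setBlk_ne {c c' : ℤ} (h : ¬ (4 : ℤ) ∣ c' - c) (x : V (4 * L)) (z : V L) :
    blk c' (setBlk c x z) = blk c' x :=
  ext' (fun i => by
    rw [blk_apply, setBlk_apply, if_neg (by omega)]; rfl)

theorem setBlk_blk (c : ℤ) (x : V (4 * L)) : setBlk c x (blk c x) = x :=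
  ext' (fun i => by
    rw [setBlk_apply]
    split_ifs with h
    · rw [blk_apply]; exact congrArg x.1 (by omega)
    · rfl)

theorem setBlk_flip (c j : ℤ) (x : V (4 * L)) (z : V L) :
    setBlk c x (flip j z) = flip (4 * j + c) (setBlk c x z) :=
  ext' (fun i => by
    simp only [setBlk_apply, flip_apply]
    by_cases h : (4 : ℤ) ∣ i - c
    · obtain ⟨m, hm⟩ := h
      have e1 : (i - c) / 4 = m := by omega
      have e2 : (((4 * L : ℕ) : ℤ) ∣ i - (4 * j + c)) ↔ (L : ℤ) ∣ m - j := by
        rw [show i - (4 * j + c) = 4 * (m - j) by omega]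
        push_cast
        exact Int.mul_dvd_mul_iff_left (by norm_num)
      simp only [e1, e2, show (4 : ℤ) ∣ i - c from ⟨m, hm⟩, if_true]
    · have : ¬ (((4 * L : ℕ) : ℤ) ∣ i - (4 * j + c)) := by
        intro hd
        have : (4 : ℤ) ∣ i - (4 * j + c) := Dvd.dvd.trans ⟨L, by push_cast; rfl⟩ hd
        omega
      simp only [h, this, if_false])

theorem blk_ext {x y : V (4 * L)} (c : ℤ) (h0 : blk c x = blk c y)
    (h1 : blk (c + 1) x = blk (c + 1) y) (h2 : blk (c + 2) x = blk (c + 2) y)
    (h3 : blk (c + 3) x = blk (c + 3) y) : x = y := by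
  apply ext'
  intro i
  have k0 := congrFun (congrArg V.val h0) ((i - c) / 4)
  have k1 := congrFun (congrArg V.val h1) ((i - c) / 4)
  have k2 := congrFun (congrArg V.val h2) ((i - c) / 4)
  have k3 := congrFun (congrArg V.val h3) ((i - c) / 4)
  simp only [blk_apply] at k0 k1 k2 k3
  have : (i - c) % 4 = 0 ∨ (i - c) % 4 = 1 ∨ (i - c) % 4 = 2 ∨ (i - c) % 4 = 3 := by omega
  rcases this with h | h | h | h
  · rwa [show 4 * ((i - c) / 4) + c = i by omega] at k0
  · rwa [show 4 * ((i - c) / 4) + (c + 1) = i by omega] at k1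
  · rwa [show 4 * ((i - c) / 4) + (c + 2) = i by omega] at k2
  · rwa [show 4 * ((i - c) / 4) + (c + 3) = i by omega] at k3

/-- Glue four blocks. -/
def glue (c : ℤ) (x0 : V (4 * L)) (y : V L × V L × V L × V L) : V (4 * L) :=
  setBlk c (setBlk (c + 1) (setBlk (c + 2) (setBlk (c + 3) x0 y.2.2.2) y.2.2.1) y.2.1) y.1

/-- Words of length `4 L` are quadruples of blocks. -/
def equivBlk (c : ℤ) (x0 : V (4 * L)) : V (4 * L) ≃ V L × V L × V L × V L where
  toFun x := (blk c x, blk (c + 1) x, blk (c + 2) x, blk (c + 3) x)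
  invFun y := glue c x0 y
  left_inv x := by
    apply blk_ext c <;> simp only [glue]
    · rw [blk_setBlk]
    · rw [blk_setBlk_ne (by omega), blk_setBlk]
    · rw [blk_setBlk_ne (by omega), blk_setBlk_ne (by omega), blk_setBlk]
    · rw [blk_setBlk_ne (by omega), blk_setBlk_ne (by omega), blk_setBlk_ne (by omega), blk_setBlk]
  right_inv y := by
    obtain ⟨a, b, d, e⟩ := y
    simp only [glue, Prod.mk.injEq]
    refine ⟨?_, ?_, ?_, ?_⟩
    · rw [blk_setBlk]
    · rw [blk_setBlk_ne (by omega), blk_setBlk]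
    · rw [blk_setBlk_ne (by omega), blk_setBlk_ne (by omega), blk_setBlk]
    · rw [blk_setBlk_ne (by omega), blk_setBlk_ne (by omega), blk_setBlk_ne (by omega), blk_setBlk]

/-- Paths of single flips inside the set `P`. -/
def Path (P : V L → Prop) : V L → V L → Prop :=
  Relation.ReflTransGen (fun a b => P a ∧ P b ∧ ∃ j, b = flip j a)

/-- `P` induces a connected subgraph of the cube. -/
def Conn (P : V L → Prop) : Prop := ∀ x y, P x → P y → Path P x y

theorem Path.mono {P Q : V L → Prop} (h : ∀ z, P z → Q z) {x y : V L} (hp : Path P x y) :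
    Path Q x y := by
  induction hp with
  | refl => exact .refl
  | tail _ h' ih => exact ih.tail ⟨h _ h'.1, h _ h'.2.1, h'.2.2⟩

theorem Path.symm {P : V L → Prop} {x y : V L} (hp : Path P x y) : Path P y x := by
  induction hp with
  | refl => exact .refl
  | tail _ h ih =>
    obtain ⟨h1, h2, j, rfl⟩ := h
    exact Relation.ReflTransGen.head ⟨h2, h1, j, by simp⟩ ih

theorem Path.setBlk {P : V L → Prop} {Q : V (4 * L) → Prop} (c : ℤ) (x : V (4 * L))
    (h : ∀ z, P z → Q (setBlk c x z)) {y z : V L} (hp : Path P y z) :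
    Path Q (setBlk c x y) (setBlk c x z) := by
  induction hp with
  | refl => exact .refl
  | tail _ h' ih =>
    obtain ⟨h1, h2, j, rfl⟩ := h'
    exact ih.tail ⟨h _ h1, h _ h2, _, setBlk_flip _ _ _ _⟩

theorem conn_univ (hL : 0 < L) : Conn (fun _ : V L => True) := by
  intro x y _ _
  have : ∀ k : ℕ, k ≤ L → ∀ x : V L, (∀ i : ℕ, k ≤ i → i < L → x.1 i = y.1 i) →
      Path (fun _ => True) x y := by
    intro k
    induction k with
    | zero =>
      intro _ x h
      rw [ext_window hL (fun i hi => h i (by omega) hi)]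
      exact .refl
    | succ k ih =>
      intro hk x h
      by_cases hx : x.1 k = y.1 k
      · apply ih (by omega)
        intro i h1 h2
        rcases Nat.eq_or_lt_of_le h1 with rfl | h1
        · exact hx
        · exact h i h1 h2
      · refine Relation.ReflTransGen.head ⟨trivial, trivial, k, rfl⟩ (ih (by omega) _ ?_)
        intro i h1 h2
        rw [flip_apply]
        rcases Nat.eq_or_lt_of_le h1 with rfl | h1
        · simp only [sub_self, dvd_zero, if_true]
          revert hx
          cases x.1 k <;> cases y.1 k <;> simp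
        · rw [if_neg, h i h1 h2]
          intro hd
          have := Int.eq_zero_of_abs_lt_dvd hd (by rw [abs_lt]; constructor <;> omega)
          omega
  exact this L le_rfl x (fun i h1 h2 => by omega)

/-- A product of connected sets is connected. -/
theorem conn_prod (c : ℤ) {P0 P1 P2 P3 : V L → Prop} (h0 : Conn P0) (h1 : Conn P1)
    (h2 : Conn P2) (h3 : Conn P3) :
    Conn (fun x : V (4 * L) =>
      P0 (blk c x) ∧ P1 (blk (c + 1) x) ∧ P2 (blk (c + 2) x) ∧ P3 (blk (c + 3) x)) := by
  rintro x y ⟨a0, a1, a2, a3⟩ ⟨b0, b1, b2, b3⟩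
  set Q : V (4 * L) → Prop := fun x =>
      P0 (blk c x) ∧ P1 (blk (c + 1) x) ∧ P2 (blk (c + 2) x) ∧ P3 (blk (c + 3) x) with hQ
  have step : ∀ (d : ℤ) (P : V L → Prop), Conn P → ∀ (w : V (4 * L)) (z : V L), P (blk d w) → P z →
      (∀ z, P z → Q (setBlk d w z)) → Path Q w (setBlk d w z) := by
    intro d P hP w z h1 h2 h3
    have := Path.setBlk (Q := Q) d w h3 (hP _ _ h1 h2)
    rwa [setBlk_blk] at this
  have p1 := step c P0 h0 x _ a0 b0 (fun z hz => by
    simp (disch := omega) only [hQ, blk_setBlk, blk_setBlk_ne]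
    exact ⟨hz, a1, a2, a3⟩)
  have p2 := step (c + 1) P1 h1 (setBlk c x (blk c y)) _
    (by simpa (disch := omega) only [blk_setBlk, blk_setBlk_ne] using a1) b1 (fun z hz => by
    simp (disch := omega) only [hQ, blk_setBlk, blk_setBlk_ne]
    exact ⟨b0, hz, a2, a3⟩)
  have p3 := step (c + 2) P2 h2 (setBlk (c + 1) (setBlk c x (blk c y)) (blk (c + 1) y)) _
    (by simpa (disch := omega) only [blk_setBlk, blk_setBlk_ne] using a2) b2 (fun z hz => by
    simp (disch := omega) only [hQ, blk_setBlk, blk_setBlk_ne]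
    exact ⟨b0, b1, hz, a3⟩)
  have p4 := step (c + 3) P3 h3 (setBlk (c + 2)
    (setBlk (c + 1) (setBlk c x (blk c y)) (blk (c + 1) y)) (blk (c + 2) y)) _
    (by simpa (disch := omega) only [blk_setBlk, blk_setBlk_ne] using a3) b3 (fun z hz => by
    simp (disch := omega) only [hQ, blk_setBlk, blk_setBlk_ne]
    exact ⟨b0, b1, b2, hz⟩)
  have e4 : setBlk (c + 3) (setBlk (c + 2)
      (setBlk (c + 1) (setBlk c x (blk c y)) (blk (c + 1) y)) (blk (c + 2) y)) (blk (c + 3) y)
      = y := by
    apply blk_ext c <;> simp (disch := omega) only [blk_setBlk, blk_setBlk_ne]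
  rw [e4] at p4
  exact ((p1.trans p2).trans p3).trans p4

end V

end Pool.Agent.P.MP_1a637f_co
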