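import Mathlib

/-! Universal words with wild cards: a word over `A ∪ {◇}` is a `List (Option A)`,
with `none` playing the role of the wild card `◇`. -/

namespace Pool.Agent.P.MP_1a637f_co

variable {A : Type*}

/-- The block of `n` consecutive characters of `w` starting at position `i` (counted from 0)
exists and covers the word `x ∈ A^n`: at every non-wild-card character it agrees with `x`. -/
def CoversAt (n : ℕ) (w : List (Option A)) (i : ℕ) (x : Fin n → A) : Prop :=
  i + n ≤ w.length ∧ ∀ (j : Fin n) (c : A), w[i + (j : ℕ)]? = some (some c) → x j = c

/-- `w` covers every word of `A^n` at exactly one position. -/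
def IsUniversal (n : ℕ) (w : List (Option A)) : Prop :=
  ∀ x : Fin n → A, ∃! i : ℕ, CoversAt n w i x

/-- `w` is `◇^n` or contains no `◇`. -/
def IsTrivial (n : ℕ) (w : List (Option A)) : Prop :=
  w = List.replicate n none ∨ none ∉ w

/-- Every window (block of `n` consecutive characters) of `w` contains exactly `d` wild cards. -/
def HasDiamondicity (n : ℕ) (w : List (Option A)) (d : ℕ) : Prop :=
  ∀ i : ℕ, i + n ≤ w.length → ((w.drop i).take n).countP Option.isNone = d

end Pool.Agent.P.MP_1a637f_co
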