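import Pool.Agent.P.MP_1a637f_co.Defs

/-! From a connected clock system to a universal word (cycle joining). -/

namespace Pool.Agent.P.MP_1a637f_co

open Classical

variable {A : Type*}

/-- `X'` is a shift successor of `X` (on windows of length `n`) and the phase advances. -/
def Step (n : ℕ) {p : ℕ} (φ : (ℕ → A) → ZMod p) (X X' : ℕ → A) : Prop :=
  (∀ j, j + 1 < n → X' j = X (j + 1)) ∧ φ X' = φ X + 1

/-- A connected clock system with window `n`, period `p`, phase `φ` and letter pattern `S`. -/
structure Good (n : ℕ) {p : ℕ} (φ : (ℕ → A) → ZMod p) (S : ZMod p → Prop) : Prop where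
  junta : ∀ X X', (∀ j, j < n → S (φ X + j) → X' j = X j) → φ X' = φ X
  succ : ∃ nx : (ℕ → A) → (ℕ → A), (∀ X, Step n φ X (nx X)) ∧
    ∀ X X', (∀ j, 0 < j → j < n → X j = X' j) → φ X = φ X' →
      nx X (n - 1) = nx X' (n - 1) → X 0 = X' 0
  conn : ∀ X X', Relation.EqvGen (Step n φ) X X'

theorem exists_single_cycle {W : Type*} [Finite W] (comp : W → W → Prop)
    (hx : ∀ a a' b b', comp a b → comp a' b → comp a b' → comp a' b')
    (σ0 : Equiv.Perm W) (h0 : ∀ w, comp w (σ0 w))
    (hconn : ∀ a b, Relation.EqvGen comp a b) (w0 : W) :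
    ∃ σ : Equiv.Perm W, (∀ w, comp w (σ w)) ∧ ∀ w, σ.SameCycle w0 w := by
  have := Fintype.ofFinite W
  let f : Equiv.Perm W → ℕ := fun σ => (Finset.univ.filter (fun w => σ.SameCycle w0 w)).card
  obtain ⟨σ, hσ, hmax⟩ := Finset.exists_max_image
    (Finset.univ.filter (fun σ : Equiv.Perm W => ∀ w, comp w (σ w))) f ⟨σ0, by simpa using h0⟩
  simp only [Finset.mem_filter, Finset.mem_univ, true_and] at hσ hmax
  refine ⟨σ, hσ, ?_⟩
  -- closed sets contain orbits
  have hclosed : ∀ (P : W → Prop) (τ : Equiv.Perm W), (∀ z, P z → P (τ z)) →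
      ∀ a b, P a → τ.SameCycle a b → P b := by
    intro P τ hP a b ha hab
    obtain ⟨k, rfl⟩ := hab.exists_nat_pow_eq
    induction k with
    | zero => simpa using ha
    | succ k ih =>
      rw [pow_succ', Equiv.Perm.mul_apply]
      exact hP _ (ih ⟨(k : ℤ), by simp⟩)
  have key : ∀ a b, comp a b → σ.SameCycle w0 a → σ.SameCycle w0 b := by
    intro a b hab ha
    by_contra hb
    set a' := σ.symm b with ha'
    have hσa' : σ a' = b := by simp [ha']
    have ha'n : ¬ σ.SameCycle w0 a' := fun h => hb (by rw [← hσa']; exact h.apply_right)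
    have hne : a ≠ a' := fun h => ha'n (h ▸ ha)
    let τ : Equiv.Perm W := σ * Equiv.swap a a'
    have hτa : τ a = b := by simp [τ, hσa']
    have hτa' : τ a' = σ a := by simp [τ]
    have hτz : ∀ z, z ≠ a → z ≠ a' → τ z = σ z := by
      intro z h1 h2
      simp [τ, Equiv.swap_apply_of_ne_of_ne h1 h2]
    have hτ : ∀ w, comp w (τ w) := by
      intro w
      by_cases h1 : w = a
      · subst h1; rw [hτa]; exact hab
      by_cases h2 : w = a'
      · subst h2; rw [hτa']
        exact hx a _ b _ hab (by have := hσ a'; rwa [hσa'] at this) (hσ a)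
      · rw [hτz w h1 h2]; exact hσ w
    have hBa : τ.SameCycle w0 a := by
      by_contra hna
      have := hclosed (fun z => τ.SameCycle w0 z ∧ σ.SameCycle w0 z) σ (by
        rintro z ⟨h1, h2⟩
        refine ⟨?_, h2.apply_right⟩
        rw [← hτz z (fun h => hna (h ▸ h1)) (fun h => ha'n (h ▸ h2))]
        exact h1.apply_right) w0 a ⟨Equiv.Perm.SameCycle.refl _ _, Equiv.Perm.SameCycle.refl _ _⟩ ha
      exact hna this.1
    have hBb : τ.SameCycle w0 b := by rw [← hτa]; exact hBa.apply_right
    have hBa' : τ.SameCycle w0 a' := by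
      by_contra hna
      have := hclosed (fun z => τ.SameCycle w0 z ∧ ¬ σ.SameCycle w0 z) σ (by
        rintro z ⟨h1, h2⟩
        refine ⟨?_, fun h => h2 (by simpa using h)⟩
        rw [← hτz z (fun h => h2 (h ▸ ha)) (fun h => hna (h ▸ h1))]
        exact h1.apply_right) b a' ⟨hBb, hb⟩ (by
          rw [← hσa']
          exact (Equiv.Perm.SameCycle.refl σ a').apply_left)
      exact hna this.1
    have hsub : ∀ z, σ.SameCycle w0 z → τ.SameCycle w0 z := by
      intro z hz
      refine hclosed (fun z => τ.SameCycle w0 z) σ ?_ w0 z (Equiv.Perm.SameCycle.refl _ _) hz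
      intro z h1
      by_cases h2 : z = a
      · subst h2; rw [← hτa']; exact hBa'.apply_right
      by_cases h3 : z = a'
      · subst h3; rw [hσa']; exact hBb
      · rw [← hτz z h2 h3]; exact h1.apply_right
    have hlt : f σ < f τ := by
      apply Finset.card_lt_card
      rw [Finset.ssubset_iff_of_subset]
      · exact ⟨b, by simpa using hBb, by simpa using hb⟩
      · intro z hz
        simp only [Finset.mem_filter, Finset.mem_univ, true_and] at hz ⊢
        exact hsub z hz
    exact absurd (hmax τ hτ) (by omega)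
  have key2 : ∀ a b, comp a b → σ.SameCycle w0 b → σ.SameCycle w0 a := by
    intro a b hab hb
    have h1 : σ.SameCycle w0 (σ.symm b) := by
      have : b = σ (σ.symm b) := by simp
      rw [this] at hb
      simpa using hb
    have h2 : comp (σ.symm b) (σ a) :=
      hx a _ b _ hab (by have := hσ (σ.symm b); simpa using this) (hσ a)
    have := key _ _ h2 h1
    simpa using this
  have key3 : ∀ a b, Relation.EqvGen comp a b → (σ.SameCycle w0 a ↔ σ.SameCycle w0 b) := by
    intro a b h
    induction h with
    | rel a b h => exact ⟨key a b h, key2 a b h⟩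
    | refl => rfl
    | symm _ _ _ ih => exact ih.symm
    | trans _ _ _ _ _ ih1 ih2 => exact ih1.trans ih2
  intro w
  exact (key3 w0 w (hconn _ _)).1 (Equiv.Perm.SameCycle.refl _ _)

theorem not_trivial {n d : ℕ} {w : List (Option A)} (a0 : A) (hu : IsUniversal n w)
    (hd : HasDiamondicity n w d) (h0 : 0 < d) (h1 : d < n) : ¬ IsTrivial n w := by
  obtain ⟨i, ⟨hi, -⟩, -⟩ := hu (fun _ => a0)
  have h := hd 0 (by omega)
  rintro (rfl | hw)
  · simp [List.countP_replicate] at h
    omega
  · have : List.countP Option.isNone ((w.drop 0).take n) = 0 := by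
      rw [List.countP_eq_zero]
      intro a ha
      have := List.mem_of_mem_take ha
      rcases a with _ | a
      · exact absurd (by simpa using this) hw
      · simp
    omega

theorem exists_upword [Finite A] (a0 : A) {n p : ℕ} [NeZero p] (hn : 0 < n) (hp : p ∣ n)
    (φ : (ℕ → A) → ZMod p) (S : ZMod p → Prop) (hG : Good n φ S) :
    ∃ w : List (Option A), IsUniversal n w ∧
      HasDiamondicity n w (Nat.count (fun i : ℕ => ¬ S (i : ZMod p)) n) := by
  have hnp : (n : ZMod p) = 0 := (ZMod.natCast_eq_zero_iff n p).2 hp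
  let nm : (ℕ → A) → ℕ → A := fun X j => if j < n ∧ S (φ X + j) then X j else a0
  have hnm : ∀ X, φ (nm X) = φ X := by
    intro X
    apply hG.junta
    intro j hj hS
    simp [nm, hj, hS]
  let Rep := {X : ℕ → A // ∀ j, ¬ (j < n ∧ S (φ X + j)) → X j = a0}
  let N : (ℕ → A) → Rep := fun X => ⟨nm X, by
    intro j hj
    rw [hnm] at hj
    simp only [nm]
    rw [if_neg hj]⟩
  have hN : ∀ a : Rep, N a.1 = a := by
    intro a
    apply Subtype.ext
    funext j
    by_cases h : j < n ∧ S (φ a.1 + j)
    · simp only [N, nm]; rw [if_pos h]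
    · simp only [N, nm]; rw [if_neg h, a.2 j h]
  have hfin : Finite Rep := by
    apply Finite.of_injective (fun (a : Rep) (j : Fin n) => a.1 j)
    intro a b hab
    apply Subtype.ext
    funext j
    by_cases hj : j < n
    · exact congrFun hab ⟨j, hj⟩
    · rw [a.2 j (fun h => hj h.1), b.2 j (fun h => hj h.1)]
  let comp : Rep → Rep → Prop := fun a b => Step n φ a.1 b.1
  have hstep : ∀ X X', Step n φ X X' → comp (N X) (N X') := by
    rintro X X' ⟨h1, h2⟩
    refine ⟨?_, by simp only [N]; rw [hnm, hnm, h2]⟩
    intro j hj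
    simp only [N, nm]
    have e : φ X' + (j : ZMod p) = φ X + ((j + 1 : ℕ) : ZMod p) := by
      rw [h2]; push_cast; ring
    rw [e, h1 j hj]
    simp [hj, show j < n by omega]
  have hx : ∀ a a' b b', comp a b → comp a' b → comp a b' → comp a' b' := by
    rintro a a' b b' ⟨h1, h2⟩ ⟨h3, h4⟩ ⟨h5, h6⟩
    exact ⟨fun j hj => by rw [h5 j hj, ← h1 j hj, h3 j hj], by rw [h6, ← h2, h4]⟩
  obtain ⟨nx, hnx, hinj⟩ := hG.succ
  have hc0 : ∀ a : Rep, comp a (N (nx a.1)) := by
    intro a
    have := hstep _ _ (hnx a.1)
    rwa [hN] at this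
  have hinj0 : Function.Injective (fun a : Rep => N (nx a.1)) := by
    intro a b hab
    simp only at hab
    obtain ⟨h1, h2⟩ := hc0 a
    obtain ⟨h3, h4⟩ := hc0 b
    rw [hab] at h1 h2
    have hφ : φ a.1 = φ b.1 := by
      have := h2.symm.trans h4
      simpa using this
    have hmid : ∀ j, 0 < j → j < n → a.1 j = b.1 j := by
      intro j hj0 hj
      obtain ⟨j, rfl⟩ : ∃ i, j = i + 1 := ⟨j - 1, by omega⟩
      rw [← h1 j hj, h3 j hj]
    apply Subtype.ext
    funext j
    by_cases hj : j < n ∧ S (φ a.1 + j)
    swap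
    · rw [a.2 j hj, b.2 j (by rwa [← hφ])]
    rcases Nat.eq_zero_or_pos j with rfl | hj0
    · apply hinj _ _ hmid hφ
      have e : ∀ c : Rep, φ (nx c.1) + ((n - 1 : ℕ) : ZMod p) = φ c.1 + ((0 : ℕ) : ZMod p) := by
        intro c
        rw [(hnx c.1).2, Nat.cast_sub (by omega), hnp]; simp
      have := congrFun (congrArg Subtype.val hab) (n - 1)
      simp only [N, nm] at this
      rw [e, e, ← hφ, if_pos ⟨by omega, hj.2⟩, if_pos ⟨by omega, hj.2⟩] at this
      exact this
    · exact hmid j hj0 hj.1
  let σ0 : Equiv.Perm Rep := Equiv.ofBijective _ (Finite.injective_iff_bijective.1 hinj0)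
  have hconn : ∀ a b, Relation.EqvGen comp a b := by
    have : ∀ X X', Relation.EqvGen (Step n φ) X X' → Relation.EqvGen comp (N X) (N X') := by
      intro X X' h
      induction h with
      | rel a b h => exact .rel _ _ (hstep a b h)
      | refl => exact .refl _
      | symm _ _ _ ih => exact .symm _ _ ih
      | trans _ _ _ _ _ ih1 ih2 => exact .trans _ _ _ ih1 ih2
    intro a b
    have := this _ _ (hG.conn a.1 b.1)
    rwa [hN, hN] at this
  let w0 : Rep := N (fun _ => a0)
  obtain ⟨σ, hσ, hcyc⟩ := exists_single_cycle comp hx σ0 hc0 hconn w0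
  let M := Function.minimalPeriod σ w0
  have hM : 0 < M := by
    apply Function.minimalPeriod_pos_of_mem_periodicPts
    refine Function.mk_mem_periodicPts (orderOf_pos σ) ?_
    show σ^[orderOf σ] w0 = w0
    rw [← Equiv.Perm.coe_pow, pow_orderOf_eq_one]; rfl
  let e : ℕ → Rep := fun i => σ^[i] w0
  have he : ∀ i, comp (e i) (e (i + 1)) := by
    intro i
    have : e (i + 1) = σ (e i) := Function.iterate_succ_apply' _ _ _
    rw [this]; exact hσ _
  have heφ : ∀ i j, φ (e (i + j)).1 = φ (e i).1 + j := by
    intro i j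
    induction j with
    | zero => simp
    | succ j ih => rw [← add_assoc, (he (i + j)).2, ih]; push_cast; ring
  have hech : ∀ j i, j < n → (e i).1 j = (e (i + j)).1 0 := by
    intro j
    induction j with
    | zero => intro i _; rfl
    | succ j ih =>
      intro i hj
      rw [← (he i).1 j hj, ih (i + 1) (by omega), show i + 1 + j = i + (j + 1) by omega]
  let ch : ℕ → Option A := fun i => if S (φ (e i).1) then some ((e i).1 0) else none
  let w : List (Option A) := (List.range (M + n - 1)).map ch
  have hlen : w.length = M + n - 1 := by simp [w]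
  have hget : ∀ i, i < M + n - 1 → w[i]? = some (ch i) := by
    intro i hi
    simp [w, hi]
  refine ⟨w, ?_, ?_⟩
  · intro x
    let X : ℕ → A := fun j => if h : j < n then x ⟨j, h⟩ else a0
    have hcov : ∀ i, CoversAt n w i x ↔ i < M ∧ e i = N X := by
      intro i
      unfold CoversAt
      rw [hlen]
      constructor
      · rintro ⟨h1, h2⟩
        refine ⟨by omega, ?_⟩
        have hag : ∀ j, j < n → S (φ (e i).1 + j) → X j = (e i).1 j := by
          intro j hj hS
          simp only [X, dif_pos hj]
          apply h2 ⟨j, hj⟩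
          rw [hget _ (by simp; omega)]
          simp only [ch]
          rw [heφ, if_pos hS, hech j i hj]
        have hφ : φ X = φ (e i).1 := hG.junta _ _ hag
        apply Subtype.ext
        funext j
        simp only [N, nm]
        by_cases hj : j < n ∧ S (φ X + j)
        · rw [if_pos hj, hag j hj.1 (by rw [← hφ]; exact hj.2)]
        · rw [if_neg hj, (e i).2 j (by rwa [← hφ])]
      · rintro ⟨h1, h2⟩
        refine ⟨by omega, ?_⟩
        intro j c hc
        rw [hget _ (by have := j.2; omega)] at hc
        simp only [ch] at hc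
        rw [heφ] at hc
        by_cases hS : S (φ (e i).1 + (j : ℕ))
        · rw [if_pos hS, ← hech j i j.2, h2] at hc
          simp only [N, nm] at hc
          rw [h2] at hS
          simp only [N] at hS
          rw [hnm] at hS
          rw [if_pos ⟨j.2, hS⟩] at hc
          simp only [X, dif_pos j.2] at hc
          simpa using hc
        · rw [if_neg hS] at hc
          simp at hc
    obtain ⟨k, hk⟩ := (hcyc (N X)).exists_nat_pow_eq
    refine ⟨k % M, (hcov _).2 ⟨Nat.mod_lt _ hM, ?_⟩, ?_⟩
    · show σ^[k % M] w0 = N X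
      rw [Function.iterate_mod_minimalPeriod_eq, ← Equiv.Perm.coe_pow, hk]
    · intro i hi
      obtain ⟨h1, h2⟩ := (hcov _).1 hi
      apply Function.iterate_injOn_Iio_minimalPeriod (f := σ) (x := w0) h1 (Nat.mod_lt _ hM)
      show σ^[i] w0 = σ^[k % M] w0
      rw [Function.iterate_mod_minimalPeriod_eq, ← Equiv.Perm.coe_pow σ k, hk]
      exact h2
  · intro i hi
    rw [hlen] at hi
    have hwin : (w.drop i).take n = (List.range n).map (fun j => ch (i + j)) := by
      apply List.ext_getElem?
      intro j
      by_cases hj : j < n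
      · rw [List.getElem?_take_of_lt hj, List.getElem?_drop, hget _ (by omega)]
        simp [hj]
      · rw [List.getElem?_eq_none (by simp; omega), List.getElem?_eq_none (by simp; omega)]
    rw [hwin, List.countP_map]
    have hper : Function.Periodic (fun i : ℕ => ¬ S (i : ZMod p)) n := by
      intro i
      simp [hnp]
    rw [← Nat.filter_Ico_card_eq_of_periodic (φ (e i).1).val n _ hper]
    rw [List.countP_eq_length_filter, ← List.toFinset_card_of_nodup
      (List.Nodup.filter _ List.nodup_range)]
    apply Finset.card_nbij (fun j => (φ (e i).1).val + j)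
    · intro j hj
      simp only [List.coe_toFinset, List.mem_filter, List.mem_range, Function.comp, ch,
        Set.mem_ofPred_eq] at hj
      rw [heφ] at hj
      simp only [Finset.coe_filter, Finset.mem_Ico, Set.mem_ofPred_eq]
      refine ⟨⟨by omega, by omega⟩, ?_⟩
      push_cast
      rw [ZMod.natCast_zmod_val]
      intro hS
      rw [if_pos hS] at hj
      simp at hj
    · intro a _ b _ h
      simpa using h
    · intro m hm
      simp only [Finset.coe_filter, Finset.mem_Ico, Set.mem_ofPred_eq] at hm
      refine ⟨m - (φ (e i).1).val, ?_, by simp only; omega⟩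
      simp only [List.coe_toFinset, List.mem_filter, List.mem_range, Function.comp, ch,
        Set.mem_ofPred_eq]
      refine ⟨by omega, ?_⟩
      rw [heφ, Nat.cast_sub hm.1.1, ZMod.natCast_zmod_val, if_neg (by simpa using hm.2)]
      rfl

end Pool.Agent.P.MP_1a637f_co
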