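import Pool.Agent.P.MP_1a637f_co.Conn

/-! Counting letters, even alphabets and the choice of parameters. -/

namespace Pool.Agent.P.MP_1a637f_co

open Classical V

theorem count_blocks (p : ℕ → Prop) {_ : DecidablePred p} (a e : ℕ)
    (h : ∀ t, Nat.count (fun i => p (a * t + i)) a ≤ e) (m : ℕ) : Nat.count p (a * m) ≤ e * m := by
  induction m with
  | zero => simp
  | succ m ih =>
    rw [mul_add, mul_one, Nat.count_add, mul_add, mul_one]
    exact add_le_add ih (h m)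

theorem count_or (p r : ℕ → Prop) {_ : DecidablePred p} {_ : DecidablePred r}
    {_ : DecidablePred fun i => p i ∨ r i} (n : ℕ) :
    Nat.count (fun i => p i ∨ r i) n ≤ Nat.count p n + Nat.count r n := by
  induction n with
  | zero => simp
  | succ n ih =>
    simp only [Nat.count_succ]
    by_cases h1 : p n <;> by_cases h2 : r n <;> simp [h1, h2] <;> omega

theorem count_not (p : ℕ → Prop) {_ : DecidablePred p} {_ : DecidablePred fun i => ¬ p i}
    (n : ℕ) :
    Nat.count (fun i => ¬ p i) n + Nat.count p n = n := by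
  induction n with
  | zero => simp
  | succ n ih =>
    simp only [Nat.count_succ]
    by_cases h1 : p n <;> simp [h1] <;> omega

theorem count_le_of_subset (p : ℕ → Prop) {_ : DecidablePred p} (n : ℕ) (s : Finset ℕ) (h : ∀ i, i < n → p i → i ∈ s) :
    Nat.count p n ≤ s.card := by
  rw [Nat.count_eq_card_filter_range]
  apply Finset.card_le_card
  intro i hi
  simp only [Finset.mem_filter, Finset.mem_range] at hi
  exact h i hi.1 hi.2

namespace Par

theorem count_S (c : Par) (m : ℕ) :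
    Nat.count (fun i : ℕ => c.S (i : ZMod (c.q * c.Q * c.K))) (c.q * c.Q * m) ≤
      (c.Q + (c.B + c.L) + c.L + c.ρ * (c.q * c.Q / c.L + 1)) * m := by
  apply count_blocks
  intro t
  have hL := c.h.Lpos
  have hB := c.hB
  let k : ZMod c.K := t
  have key : ∀ i, i < c.q * c.Q → c.S ((c.q * c.Q * t + i : ℕ) : ZMod (c.q * c.Q * c.K)) →
      (((i : ZMod c.q) = -1 ∨ i < c.B + c.L) ∨ c.q * c.Q ≤ i + c.L) ∨
        c.rd (sh (i : ℤ) (c.rep k)) := by
    intro i hi h
    obtain ⟨X, -, hX⟩ := R_phase (c := c) (fun _ => false) 0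
    have := (S_iff X (c.q * c.Q * t + i) i hi t (by rw [hX, zero_add, add_comm])).1
      (by rw [hX, zero_add]; exact h)
    tauto
  refine le_trans (Nat.count_mono_left key) ?_
  refine le_trans (@count_or _ _ inferInstance inferInstance _ _) (add_le_add
    (le_trans (@count_or _ _ inferInstance inferInstance _ _) (add_le_add
    (le_trans (@count_or _ _ inferInstance inferInstance _ _) (add_le_add ?_ ?_)) ?_)) ?_)
  · refine le_trans (count_blocks _ c.q 1 (fun t => ?_) c.Q) (by simp)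
    refine le_trans (count_le_of_subset _ _ {c.q - 1} ?_) (by simp)
    intro i hi h
    have h' : (i : ZMod c.q) = -1 := by simpa using h
    rw [eq_neg_one_iff, ZMod.val_natCast_of_lt hi] at h'
    simp; omega
  · refine le_trans (count_le_of_subset _ _ (Finset.range (c.B + c.L)) ?_) (by simp)
    intro i _ h
    simpa using h
  · refine le_trans (count_le_of_subset _ _ (Finset.Ico (c.q * c.Q - c.L) (c.q * c.Q)) ?_)
      (by simp; omega)
    intro i hi h
    simp only [Finset.mem_Ico]; omega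
  · refine le_trans (Nat.count_monotone _ (show c.q * c.Q ≤ c.L * (c.q * c.Q / c.L + 1) from
      (Nat.lt_mul_div_succ _ hL).le)) (count_blocks _ _ _ (fun t => ?_) _)
    refine le_trans (Nat.count_mono_left (fun i _ hi => ?_))
      (c.h.count (sh ((c.L * t : ℕ) : ℤ) (c.rep k)))
    rw [sh_sh, add_comm, ← Nat.cast_add]
    exact hi

theorem S_zero (c : Par) : c.S ((0 : ℕ) : ZMod (c.q * c.Q * c.K)) := by
  have := c.h.Lpos
  right; left
  simp; omega

end Par

theorem Good.prod {n p : ℕ} {φ : (ℕ → Bool) → ZMod p} {S : ZMod p → Prop} (hn : 1 < n)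
    (h : Good n φ S) {A B : Type*} (e : A ≃ Bool × B) :
    Good n (fun X : ℕ → A => φ (fun i => (e (X i)).1)) S := by
  obtain ⟨nx, h1, h2⟩ := h.succ
  have hsucc : ∀ (X : ℕ → A) (Y : ℕ → Bool) (β : B), Step n φ (fun i => (e (X i)).1) Y →
      Step n (fun X : ℕ → A => φ (fun i => (e (X i)).1)) X
        (fun j => e.symm (Y j, if j + 1 < n then (e (X (j + 1))).2 else β)) := by
    rintro X Y β ⟨a1, a2⟩
    refine ⟨fun j hj => ?_, by simpa using a2⟩
    beta_reduce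
    rw [if_pos hj, a1 j hj]; simp
  have same : ∀ (k : ℕ) (X X' : ℕ → A), (∀ i, (e (X i)).1 = (e (X' i)).1) →
      (∀ i, k ≤ i → i < n → X i = X' i) →
      Relation.EqvGen (Step n (fun X : ℕ → A => φ (fun i => (e (X i)).1))) X X' := by
    intro k
    induction k with
    | zero =>
      intro X X' a1 a2
      have b1 := hsucc X _ (e (X 0)).2 (h1 _)
      refine .trans _ _ _ (.rel _ _ b1) (.symm _ _ (.rel _ _ ⟨fun j hj => ?_, ?_⟩))
      · rw [b1.1 j hj, a2 _ (by omega) hj]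
      · rw [b1.2]
        beta_reduce
        rw [show (fun i => (e (X' i)).1) = fun i => (e (X i)).1 from funext (fun i => (a1 i).symm)]
    | succ k ih =>
      intro X X' a1 a2
      have b1 := hsucc X _ (e (X 0)).2 (h1 _)
      have b2 := hsucc X' _ (e (X 0)).2 (h1 _)
      refine .trans _ _ _ (.rel _ _ b1) (.trans _ _ _ (ih _ _ ?_ ?_) (.symm _ _ (.rel _ _ b2)))
      · intro i
        simp [show (fun i => (e (X' i)).1) = fun i => (e (X i)).1 from funext (fun i => (a1 i).symm)]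
      · intro i hi _
        rw [show (fun i => (e (X' i)).1) = fun i => (e (X i)).1 from funext (fun i => (a1 i).symm)]
        by_cases hi' : i + 1 < n
        · rw [a2 (i + 1) (by omega) hi']
        · rw [if_neg hi', if_neg hi']
  refine ⟨fun X X' hX => h.junta _ _ (fun j hj hS => by rw [hX j hj hS]), ?_, ?_⟩
  · refine ⟨fun X j => e.symm (nx (fun i => (e (X i)).1) j,
      if j + 1 < n then (e (X (j + 1))).2 else (e (X 0)).2), fun X => hsucc X _ _ (h1 _), ?_⟩
    intro X X' a1 a2 a3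
    simp only [EmbeddingLike.apply_eq_iff_eq, Prod.mk.injEq] at a3
    rw [if_neg (by omega), if_neg (by omega)] at a3
    apply e.injective
    exact Prod.ext (h2 _ _ (fun j b1 b2 => by rw [a1 j b1 b2]) a2 a3.1) a3.2
  · have lift : ∀ Y Y', Relation.EqvGen (Step n φ) Y Y' → ∀ X X' : ℕ → A,
        (∀ i, (e (X i)).1 = Y i) → (∀ i, (e (X' i)).1 = Y' i) →
        Relation.EqvGen (Step n (fun X : ℕ → A => φ (fun i => (e (X i)).1))) X X' := by
      intro Y Y' hY
      induction hY with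
      | rel Y Y' hY =>
        intro X X' a1 a2
        have b1 := hsucc X Y' (e (X 0)).2 (by rwa [show (fun i => (e (X i)).1) = Y from funext a1])
        exact .trans _ _ _ (.rel _ _ b1)
          (same n _ _ (fun i => by simp [a2]) (fun i b1 b2 => by omega))
      | refl Y =>
        intro X X' a1 a2
        exact same n _ _ (fun i => by rw [a1, a2]) (fun i b1 b2 => by omega)
      | symm _ _ _ ih => exact fun X X' a1 a2 => .symm _ _ (ih X' X a2 a1)
      | trans Y Z Y' _ _ ih1 ih2 =>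
        intro X X' a1 a2
        exact .trans _ (fun i => e.symm (Z i, (e (X i)).2)) _ (ih1 _ _ a1 (by simp))
          (ih2 _ _ (by simp) a2)
    intro X X'
    exact lift _ _ (h.conn _ _) X X' (fun _ => rfl) (fun _ => rfl)

theorem exists_par (η : ℝ) (hη : 0 < η) (n0 : ℕ) : ∃ c : Par, n0 ≤ c.n ∧
    ((c.Q + (c.B + c.L) + c.L + c.ρ * (c.q * c.Q / c.L + 1) : ℕ) : ℝ) < η * (c.q * c.Q : ℕ) := by
  obtain ⟨k, hk⟩ := exists_pow_lt_of_lt_one (show 0 < η / 3 by positivity)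
    (show (3 / 4 : ℝ) < 1 by norm_num)
  obtain ⟨L, hL⟩ : ∃ L, L = 3 * 4 ^ (k + 2) := ⟨_, rfl⟩
  obtain ⟨ρ, hρ⟩ : ∃ ρ, ρ = 3 * 3 ^ (k + 2) := ⟨_, rfl⟩
  have hV := hasVSU k
  rw [← hL, ← hρ] at hV
  obtain ⟨b, Φ, C, rd, h, hun⟩ := hV
  have hq : 2 * 4 ^ (k + 1) ∣ L := ⟨6, by rw [hL]; ring⟩
  obtain ⟨K, B, lab, rep, hs⟩ := exists_sched h hun hq
  obtain ⟨g, hg⟩ := pow_unbounded_of_one_lt (((B + 3 * L + ρ : ℕ) : ℝ) * (3 / η + 1))
    (show (1 : ℝ) < 4 by norm_num)
  obtain ⟨b2, χ, C2, rd2, h2⟩ := hasVS (L + 1 + n0) (g + 1)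
  have hbig : ∀ m : ℕ, m < 4 ^ m := fun m => Nat.lt_pow_self (by norm_num)
  have hT : ((B + 3 * L + ρ : ℕ) : ℝ) * (3 / η + 1) < (2 * 4 ^ (k + 1) * (2 * 4 ^ (g + 1)) : ℕ) := by
    refine hg.trans_le ?_
    push_cast
    have : (1 : ℝ) ≤ 4 ^ (k + 1) := one_le_pow₀ (by norm_num)
    have : (0 : ℝ) < 4 ^ g := by positivity
    rw [pow_succ (4 : ℝ) g]
    nlinarith
  have hn : L + 1 + n0 < 3 * 4 ^ (L + 1 + n0 + (g + 1)) := by
    have := hbig (L + 1 + n0 + (g + 1))
    omega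
  have hq2 : 2 ≤ 2 * 4 ^ (k + 1) := by have := hbig (k + 1); omega
  refine ⟨⟨L, _, _, ρ, _, _, K, B, b, Φ, C, rd, lab, rep, χ, h, hun, hq, hs, h2.Lpos, h2.qpos,
    h2.Φ_sh, h2.conn_Φ, ?_, ⟨4 ^ g * 2, by ring⟩, ?_, ?_⟩, ?_, ?_⟩
  · rw [mul_assoc]
    apply Nat.mul_dvd_mul_left
    obtain ⟨u, hu⟩ := hs.Kdvd
    refine ⟨3 * u * 2 ^ (L + 1) * 4 ^ n0, ?_⟩
    have : (4 : ℕ) ^ (L + 1) = 2 * (K * u) * 2 ^ (L + 1) := by
      rw [← hu, show (4 : ℕ) = 2 * 2 by norm_num, mul_pow, pow_succ 2 L]; ring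
    rw [pow_add, pow_add, this]; ring
  · have : ((B + 3 * L : ℕ) : ℝ) ≤ (2 * 4 ^ (k + 1) * (2 * 4 ^ (g + 1)) : ℕ) := by
      refine le_trans ?_ hT.le
      have : (0 : ℝ) ≤ ((B + 3 * L + ρ : ℕ) : ℝ) * (3 / η) := by positivity
      have : ((B + 3 * L : ℕ) : ℝ) ≤ ((B + 3 * L + ρ : ℕ) : ℝ) := by
        exact_mod_cast Nat.le_add_right _ _
      linarith
    exact_mod_cast this
  · nlinarith
  · show n0 ≤ 2 * 4 ^ (k + 1) * (3 * 4 ^ (L + 1 + n0 + (g + 1)))
    nlinarith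
  · show ((2 * 4 ^ (g + 1) + (B + L) + L + ρ * (2 * 4 ^ (k + 1) * (2 * 4 ^ (g + 1)) / L + 1) : ℕ) : ℝ)
      < η * (2 * 4 ^ (k + 1) * (2 * 4 ^ (g + 1)) : ℕ)
    set Q := 2 * 4 ^ (g + 1) with hQ
    set q := 2 * 4 ^ (k + 1) with hq'
    have hQ0 : (0 : ℝ) < Q := by rw [hQ]; positivity
    have hq0 : (0 : ℝ) < q := by rw [hq']; positivity
    have h34 : (0 : ℝ) < (3 / 4) ^ k := by positivity
    have a1 : (Q : ℝ) ≤ η / 3 * (q * Q : ℕ) := by
      have : (1 : ℝ) ≤ (3 / 4) ^ k * q := by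
        rw [hq']; push_cast
        rw [pow_succ, show (3 / 4 : ℝ) ^ k * (2 * (4 ^ k * 4)) = 8 * ((3 / 4) ^ k * 4 ^ k) by ring,
          ← mul_pow]
        have : (1 : ℝ) ≤ (3 / 4 * 4) ^ k := one_le_pow₀ (by norm_num)
        linarith
      have : (1 : ℝ) ≤ η / 3 * q := this.trans (by gcongr)
      push_cast
      nlinarith
    have a2 : ((ρ * (q * Q / L) : ℕ) : ℝ) ≤ η / 3 * (q * Q : ℕ) := by
      have b1 : ((q * Q / L : ℕ) : ℝ) ≤ (q * Q : ℕ) / L := Nat.cast_div_le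
      have b2 : (ρ : ℝ) / L ≤ η / 3 := by
        rw [hρ, hL]; push_cast
        rw [mul_div_mul_left _ _ (by norm_num), ← div_pow, pow_add]
        nlinarith
      calc ((ρ * (q * Q / L) : ℕ) : ℝ) = ρ * ((q * Q / L : ℕ) : ℝ) := by push_cast; rfl
        _ ≤ ρ * ((q * Q : ℕ) / L) := by gcongr
        _ = ρ / L * (q * Q : ℕ) := by ring
        _ ≤ η / 3 * (q * Q : ℕ) := by gcongr
    have a3 : ((B + 2 * L + ρ : ℕ) : ℝ) < η / 3 * (q * Q : ℕ) := by
      have b1 : ((B + 2 * L + ρ : ℕ) : ℝ) ≤ ((B + 3 * L + ρ : ℕ) : ℝ) := by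
        exact_mod_cast (by omega)
      have b2 : ((B + 3 * L + ρ : ℕ) : ℝ) * (3 / η) < (q * Q : ℕ) := by
        have : (0 : ℝ) ≤ ((B + 3 * L + ρ : ℕ) : ℝ) := by positivity
        linarith
      have b3 : ((B + 3 * L + ρ : ℕ) : ℝ) = η / 3 * (((B + 3 * L + ρ : ℕ) : ℝ) * (3 / η)) := by
        field_simp
      rw [b3] at b1
      exact b1.trans_lt (by gcongr)
    have : ((Q + (B + L) + L + ρ * (q * Q / L + 1) : ℕ) : ℝ) =
        Q + ((ρ * (q * Q / L) : ℕ) : ℝ) + ((B + 2 * L + ρ : ℕ) : ℝ) := by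
      rw [← Nat.cast_add, ← Nat.cast_add]
      congr 1; ring
    rw [this]
    linarith

theorem main {A : Type*} [Fintype A] (h2 : 2 ≤ Fintype.card A) (hA : Even (Fintype.card A))
    (ε : ℝ) (h0 : 0 < ε) (h1 : ε < 1) (n0 : ℕ) : ∃ n, n0 ≤ n ∧ ∃ (w : List (Option A)) (d : ℕ),
      IsUniversal n w ∧ ¬ IsTrivial n w ∧ HasDiamondicity n w d ∧ ε * n < d := by
  obtain ⟨c, hc1, hc2⟩ := exists_par (1 - ε) (by linarith) n0
  obtain ⟨r, hr⟩ := hA
  obtain ⟨e⟩ : Nonempty (A ≃ Bool × Fin r) := Fintype.card_eq.1 (by simp [hr]; ring)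
  have hn := c.hn'
  have hL := c.h.Lpos
  obtain ⟨a0⟩ : Nonempty A := Fintype.card_pos_iff.1 (by omega)
  obtain ⟨w, hw1, hw2⟩ := exists_upword (n := c.n) a0 (by omega) c.hp _ _ (c.good.prod (by omega) e)
  obtain ⟨m, hm⟩ : c.q * c.Q ∣ c.n := (dvd_mul_right _ _).trans c.hp
  have hm0 : 0 < m := by
    rcases Nat.eq_zero_or_pos m with rfl | h
    · omega
    · exact h
  have hcnt := c.count_S m
  rw [← hm] at hcnt
  have hsum := @count_not (fun i : ℕ => c.S (i : ZMod (c.q * c.Q * c.K))) inferInstance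
    inferInstance c.n
  have hpos : 0 < Nat.count (fun i : ℕ => c.S (i : ZMod (c.q * c.Q * c.K))) c.n := by
    rw [Nat.pos_iff_ne_zero, Ne, Nat.count_iff_forall_not]
    exact fun h => h 0 (by omega) c.S_zero
  have hlt : ε * c.n < Nat.count (fun i : ℕ => ¬ c.S (i : ZMod (c.q * c.Q * c.K))) c.n := by
    have a1 : ((Nat.count (fun i : ℕ => c.S (i : ZMod (c.q * c.Q * c.K))) c.n : ℕ) : ℝ) <
        (1 - ε) * c.n := by
      refine lt_of_le_of_lt (Nat.cast_le.2 hcnt) ?_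
      rw [Nat.cast_mul, hm, Nat.cast_mul (c.q * c.Q), ← mul_assoc]
      have : (0 : ℝ) < m := by exact_mod_cast hm0
      gcongr
    have a2 := congrArg (Nat.cast (R := ℝ)) hsum
    push_cast at a2
    linarith
  refine ⟨c.n, hc1, w, _, hw1, not_trivial a0 hw1 hw2 ?_ (by omega), hw2, hlt⟩
  have : (0 : ℝ) < ε * c.n := by
    have : (0 : ℝ) < c.n := by exact_mod_cast (by omega)
    positivity
  exact_mod_cast this.trans hlt

end Pool.Agent.P.MP_1a637f_co
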