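import Pool.Agent.P.MP_1a637f_co.Sched
import Pool.Agent.P.MP_1a637f_co.Euler

/-! The real clock system: virtual window, counter and schedule. -/

namespace Pool.Agent.P.MP_1a637f_co

open Classical V

/-- All data of the construction. -/
structure Par where
  L : ℕ
  q : ℕ
  Pd : ℕ
  ρ : ℕ
  M : ℕ
  Q : ℕ
  K : ℕ
  B : ℕ
  b : V L → Bool
  Φ : V L → ZMod q
  C : V L → V L → Prop
  rd : V L → Prop
  lab : ℕ → V L → ZMod K
  rep : ZMod K → V L
  χ : V M → ZMod Q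
  h : VS L q Pd ρ b Φ C rd
  hun : ∀ x, Φ x = -1 → ¬ rd x
  hq : q ∣ L
  s : Sched Pd Φ C K B lab rep
  Mpos : 0 < M
  Qpos : 0 < Q
  χ_sh : ∀ y, χ (sh 1 y) = χ y + 1
  χ_conn : ∀ r, Conn (fun y => χ y = r)
  hp : q * Q * K ∣ q * M
  hP : Pd ∣ q * Q
  hB : B + 3 * L ≤ q * Q
  hn : 2 * L < q * M

namespace Par

variable (c : Par)

instance : NeZero c.q := ⟨c.h.qpos.ne'⟩
instance : NeZero c.Q := ⟨c.Qpos.ne'⟩
instance : NeZero c.K := ⟨c.s.Kpos.ne'⟩

/-- Window length. -/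
def n : ℕ := c.q * c.M

/-- Virtual window. -/
def vv (X : ℕ → Bool) : V c.L := win c.L c.h.Lpos (fun i => xor (X i) (X (i + (c.n - c.L))))

/-- First counter position. -/
def j0 (a : ZMod c.q) : ℕ := (-1 - a).val

/-- Counter window. -/
def yy (a : ZMod c.q) (X : ℕ → Bool) : V c.M := win c.M c.Mpos (fun i => X (c.j0 a + c.q * i))

/-- Low clock. -/
def aa (X : ℕ → Bool) : ZMod c.q := c.Φ (c.vv X)

/-- Middle clock. -/
def σσ (X : ℕ → Bool) : ZMod (c.q * c.Q) := comb (c.aa X) (c.χ (c.yy (c.aa X) X))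

/-- Phase. -/
def φ (X : ℕ → Bool) : ZMod (c.q * c.Q * c.K) := comb (c.σσ X) (c.lab (c.σσ X).val (c.vv X))

/-- Letter positions. -/
def S (s : ZMod (c.q * c.Q * c.K)) : Prop :=
  ((s.val : ℕ) : ZMod c.q) = -1 ∨ s.val % (c.q * c.Q) < c.B + c.L ∨
    c.q * c.Q ≤ s.val % (c.q * c.Q) + c.L ∨
    c.rd (sh ((s.val % (c.q * c.Q) : ℕ) : ℤ) (c.rep ((s.val / (c.q * c.Q) : ℕ) : ZMod c.K)))

/-- `X'` is a shift of `X`. -/
def Sh (X X' : ℕ → Bool) : Prop := ∀ j, j + 1 < c.n → X' j = X (j + 1)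

theorem hn' : 2 * c.L < c.n := c.hn

theorem aa_eq (X : ℕ → Bool) : c.Φ (c.vv X) = (((c.σσ X).val : ℕ) : ZMod c.q) :=
  (comb_cast _ _).symm

theorem n_cast : ((c.n : ℕ) : ZMod c.q) = 0 := by simp [n]

theorem L_cast : ((c.L : ℕ) : ZMod c.q) = 0 := (ZMod.natCast_eq_zero_iff _ _).2 c.hq

theorem nL_cast : ((c.n - c.L : ℕ) : ZMod c.q) = 0 := by
  rw [Nat.cast_sub (by have := c.hn'; omega), n_cast, L_cast, sub_zero]

theorem j0_lt (a : ZMod c.q) : c.j0 a < c.q := ZMod.val_lt _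

theorem pos_lt (a : ZMod c.q) {i : ℕ} (hi : i < c.M) : c.j0 a + c.q * i < c.n := by
  have := c.j0_lt a
  calc c.j0 a + c.q * i < c.q + c.q * i := by omega
    _ = c.q * (i + 1) := by ring
    _ ≤ c.q * c.M := Nat.mul_le_mul_left _ hi

theorem pos_cast (a : ZMod c.q) (i : ℕ) : a + ((c.j0 a + c.q * i : ℕ) : ZMod c.q) = -1 := by
  simp [j0]

theorem exists_pos (a : ZMod c.q) {j : ℕ} (hj : j < c.n) (h : a + j = -1) :
    ∃ i, i < c.M ∧ j = c.j0 a + c.q * i := by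
  refine ⟨j / c.q, Nat.div_lt_of_lt_mul hj, ?_⟩
  have : c.j0 a = j % c.q := by
    unfold j0
    rw [← h, add_sub_cancel_left, ZMod.val_natCast]
  rw [this, Nat.mod_add_div]

variable {c}

theorem vv_succ {X X' : ℕ → Bool} (h : c.Sh X X')
    (hy : xor (X c.L) (X' (c.n - 1)) = !(xor (X 0) (X (c.n - c.L)))) :
    c.vv X' = sh 1 (c.vv X) := by
  have := c.hn'
  have := c.h.Lpos
  apply win_succ
  · intro i hi
    rw [h i (by omega), h _ (by omega), show i + (c.n - c.L) + 1 = i + 1 + (c.n - c.L) by omega]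
  · rw [h _ (by omega), show c.L - 1 + 1 = c.L by omega,
      show c.L - 1 + (c.n - c.L) = c.n - 1 by omega, hy, zero_add]

theorem vv_succ' {X X' : ℕ → Bool} (h : c.Sh X X')
    (hy : xor (X c.L) (X' (c.n - 1)) = (xor (X 0) (X (c.n - c.L)))) :
    c.vv X' = sh 1 (flip 0 (c.vv X)) := by
  have := c.hn'
  have := c.h.Lpos
  apply win_succ'
  · intro i hi
    rw [h i (by omega), h _ (by omega), show i + (c.n - c.L) + 1 = i + 1 + (c.n - c.L) by omega]
  · rw [h _ (by omega), show c.L - 1 + 1 = c.L by omega,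
      show c.L - 1 + (c.n - c.L) = c.n - 1 by omega, hy, zero_add]

theorem vv_succ_or {X X' : ℕ → Bool} (h : c.Sh X X') :
    c.vv X' = sh 1 (c.vv X) ∨ c.vv X' = sh 1 (flip 0 (c.vv X)) := by
  by_cases hy : xor (X c.L) (X' (c.n - 1)) = (xor (X 0) (X (c.n - c.L)))
  · exact Or.inr (vv_succ' h hy)
  · exact Or.inl (vv_succ h (Bool.eq_not_iff.2 hy))

theorem yy_succ {X X' : ℕ → Bool} (h : c.Sh X X') (a : ZMod c.q)
    (ha : a = -1 → X' (c.n - 1) = !X 0) :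
    c.χ (c.yy (a + 1) X') = if a = -1 then c.χ (c.yy a X) + 1 else c.χ (c.yy a X) := by
  have hq := c.h.qpos
  have hM := c.Mpos
  split_ifs with h1
  · rw [← c.χ_sh]
    congr 1
    have e0 : c.j0 a = 0 := by simp [j0, h1]
    have e1 : c.j0 (a + 1) + 1 = c.q := by
      unfold j0
      rw [← eq_neg_one_iff]; simp [h1]
    apply win_succ
    · intro i hi
      have : c.j0 (a + 1) + c.q * i + 1 = c.j0 a + c.q * (i + 1) := by rw [mul_add]; omega
      rw [h _ (by rw [this]; exact c.pos_lt a hi), this]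
    · rw [e0, mul_zero, zero_add, ← ha h1]
      congr 1
      obtain ⟨m, hm⟩ : ∃ m, c.M = m + 1 := ⟨c.M - 1, by omega⟩
      unfold n
      rw [hm, mul_add]; simp; omega
  · congr 1
    have e1 : c.j0 (a + 1) + 1 = c.j0 a := by
      unfold j0
      rw [← val_succ_of_ne]
      · congr 1; ring
      · intro h2
        apply h1
        linear_combination -h2
    apply win_congr
    intro i hi
    have : c.j0 (a + 1) + c.q * i + 1 = c.j0 a + c.q * i := by omega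
    rw [h _ (by rw [this]; exact c.pos_lt a hi), this]

theorem σσ_succ {X X' : ℕ → Bool} (h : c.Sh X X') (h1 : c.aa X' = c.aa X + 1)
    (ha : c.aa X = -1 → X' (c.n - 1) = !X 0) : c.σσ X' = c.σσ X + 1 := by
  unfold σσ
  rw [h1, yy_succ h _ ha, comb_succ]

theorem φ_succ {X X' : ℕ → Bool} (h : c.Sh X X') (h1 : c.aa X' = c.aa X + 1)
    (ha : c.aa X = -1 → X' (c.n - 1) = !X 0)
    (hl : c.lab ((c.σσ X).val + 1) (c.vv X') = c.lab (c.σσ X).val (c.vv X)) :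
    c.φ X' = c.φ X + 1 := by
  have hσ := σσ_succ h h1 ha
  unfold φ
  rw [← comb_succ, ← hσ]
  congr 1
  split_ifs with h2
  · have h3 : c.σσ X' = 0 := by rw [hσ, h2]; simp
    have h4 := c.aa_eq X'
    rw [h3] at h4
    rw [(eq_neg_one_iff _).1 h2] at hl
    have := c.hB
    rw [h3, ← hl, ZMod.val_zero]
    exact c.s.wrap _ (by omega) c.hP (dvd_mul_right _ _) _ (by simpa using h4)
  · rw [hσ, val_succ_of_ne h2, hl]

theorem φ_eq {X X' : ℕ → Bool} (h1 : c.aa X' = c.aa X)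
    (h2 : c.χ (c.yy (c.aa X) X') = c.χ (c.yy (c.aa X) X))
    (h3 : c.lab (c.σσ X).val (c.vv X') = c.lab (c.σσ X).val (c.vv X)) : c.φ X' = c.φ X := by
  have : c.σσ X' = c.σσ X := by unfold σσ; rw [h1, h2]
  unfold φ
  rw [this, h3]

theorem φ_inj {X X' : ℕ → Bool} (h : c.φ X' = c.φ X) : c.σσ X' = c.σσ X ∧ c.aa X' = c.aa X ∧
    c.χ (c.yy (c.aa X) X') = c.χ (c.yy (c.aa X) X) ∧
    c.lab (c.σσ X).val (c.vv X') = c.lab (c.σσ X).val (c.vv X) := by
  obtain ⟨h1, h2⟩ := comb_inj h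
  obtain ⟨h3, h4⟩ := comb_inj h1
  rw [h1] at h2
  rw [h3] at h4
  exact ⟨h1, h3, h4, h2⟩

theorem vv_apply (X : ℕ → Bool) {i : ℕ} (hi : i < c.L) :
    (c.vv X).1 i = xor (X i) (X (i + (c.n - c.L))) := win_apply _ _ hi

theorem agree_of_window {v v' : V c.L} (p : ℤ → Prop) (hp : ∀ i, p i → p (i % c.L))
    (h : ∀ i : ℕ, i < c.L → p i → v'.1 i = v.1 i) (i : ℤ) (hi : p i) : v'.1 i = v.1 i := by
  have hL := c.h.Lpos
  rw [← mod_iff]
  have h0 : 0 ≤ i % c.L := Int.emod_nonneg _ (by omega)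
  have h1 : i % c.L < c.L := Int.emod_lt_of_pos _ (by omega)
  have := h (i % c.L).toNat (by omega) (by rw [Int.toNat_of_nonneg h0]; exact hp i hi)
  rwa [Int.toNat_of_nonneg h0] at this

theorem cast_mod (i : ℤ) : ((i % c.L : ℤ) : ZMod c.q) = i :=
  cast_eq_of_dvd c.hq (by rw [Int.emod_def]; simp)

theorem rd_mul (v : V c.L) (k : ℤ) : c.rd (sh (k * c.L) v) ↔ c.rd v := by
  induction k using Int.induction_on with
  | zero => simp
  | succ k ih => rw [← ih, show ((k : ℤ) + 1) * c.L = c.L + k * c.L by ring, ← sh_sh, c.h.rd_L]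
  | pred k ih =>
    rw [← ih, show (-(k : ℤ)) * c.L = c.L + (-(k : ℤ) - 1) * c.L by ring, ← sh_sh, c.h.rd_L]

theorem S_iff (X : ℕ → Bool) (j : ℕ) (t : ℕ) (ht : t < c.q * c.Q) (k : ℕ)
    (h : c.φ X + j = ((t + c.q * c.Q * k : ℕ) : ZMod (c.q * c.Q * c.K))) :
    c.S (c.φ X + j) ↔ ((t : ZMod c.q) = -1 ∨ t < c.B + c.L ∨ c.q * c.Q ≤ t + c.L ∨
      c.rd (sh (t : ℤ) (c.rep (k : ZMod c.K)))) := by
  unfold S
  rw [h, ZMod.val_natCast, Nat.mod_mod_of_dvd _ (dvd_mul_right _ _), Nat.add_mul_mod_self_left,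
    Nat.mod_eq_of_lt ht, Nat.mod_mul_right_div_self, Nat.add_mul_div_left _ _ (by omega),
    Nat.div_eq_of_lt ht, zero_add, ZMod.natCast_mod]
  have : (((t + c.q * c.Q * k) % (c.q * c.Q * c.K) : ℕ) : ZMod c.q) = t := by
    rw [ZMod.natCast_eq_natCast_iff', Nat.mod_mod_of_dvd _ ⟨c.Q * c.K, by ring⟩, mul_assoc,
      Nat.add_mul_mod_self_left]
  rw [this]

theorem φ_add (X : ℕ → Bool) (j : ℕ) : c.φ X + j =
    (((c.σσ X).val + j + c.q * c.Q * (c.lab (c.σσ X).val (c.vv X)).val : ℕ) :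
      ZMod (c.q * c.Q * c.K)) := by
  unfold φ comb
  push_cast; ring

theorem S_ref (X : ℕ → Bool) (j : ℕ) (h : c.aa X + j = -1) : c.S (c.φ X + j) := by
  left
  rw [φ_add, ZMod.val_natCast, ← h, aa, aa_eq, ← Nat.cast_add, ZMod.natCast_eq_natCast_iff',
    Nat.mod_mod_of_dvd _ ⟨c.Q * c.K, by ring⟩, mul_assoc, Nat.add_mul_mod_self_left]

theorem S_read (X : ℕ → Bool) {j : ℕ} (hj : j < c.L)
    (h : c.B ≤ (c.σσ X).val → c.rd (sh j (c.vv X))) :
    c.S (c.φ X + j) ∧ c.S (c.φ X + (j + (c.n - c.L) : ℕ)) := by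
  have hB := c.hB
  have hn := c.hn'
  have hσ := ZMod.val_lt (c.σσ X)
  have hrd : c.B ≤ (c.σσ X).val → ∀ t : ℤ, (c.L : ℤ) ∣ t - ((c.σσ X).val + j) →
      c.rd (sh t (c.rep ((c.lab (c.σσ X).val (c.vv X)).val : ZMod c.K))) := by
    rintro h1 t ⟨m, hm⟩
    have h2 := c.h.C_sh j _ _ (c.s.rep _ h1 _ (c.aa_eq X))
    have h3 := c.h.C_rd _ _ (c.h.C_symm _ _ h2) (h h1)
    rw [← rd_mul _ m, sh_sh, sh_sh] at h3
    rw [ZMod.natCast_zmod_val]
    convert h3 using 2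
    linarith
  constructor
  · by_cases h1 : (c.σσ X).val + j < c.q * c.Q
    · rw [S_iff X j _ h1 _ (φ_add X j)]
      by_cases h2 : c.B ≤ (c.σσ X).val
      · exact Or.inr (Or.inr (Or.inr (hrd h2 _ (by simp))))
      · exact Or.inr (Or.inl (by omega))
    · rw [S_iff X j ((c.σσ X).val + j - c.q * c.Q) (by omega)
        ((c.lab (c.σσ X).val (c.vv X)).val + 1) (by rw [φ_add]; congr 1; rw [mul_add]; omega)]
      exact Or.inr (Or.inl (by omega))
  · have hn0 : ((c.n : ℕ) : ZMod (c.q * c.Q * c.K)) = 0 := (ZMod.natCast_eq_zero_iff _ _).2 c.hp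
    by_cases h1 : c.L ≤ (c.σσ X).val + j
    · rw [S_iff X _ ((c.σσ X).val + j - c.L) (by omega) (c.lab (c.σσ X).val (c.vv X)).val (by
        rw [φ_add, ← add_zero (((_ - _ + _ : ℕ)) : ZMod (c.q * c.Q * c.K)), ← hn0, ← Nat.cast_add]
        congr 1; omega)]
      by_cases h2 : c.B ≤ (c.σσ X).val
      · exact Or.inr (Or.inr (Or.inr (hrd h2 _ ⟨-1, by omega⟩)))
      · exact Or.inr (Or.inl (by omega))
    · have hK := c.s.Kpos
      have hp0 : ((c.q * c.Q * c.K : ℕ) : ZMod (c.q * c.Q * c.K)) = 0 := ZMod.natCast_self _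
      rw [S_iff X _ ((c.σσ X).val + j + c.q * c.Q - c.L) (by omega)
        ((c.lab (c.σσ X).val (c.vv X)).val + (c.K - 1)) (by
        rw [φ_add, ← add_zero (((_ - _ + _ : ℕ)) : ZMod (c.q * c.Q * c.K)), ← hn0, ← Nat.cast_add,
          ← add_zero (((_ + _ + _ : ℕ)) : ZMod (c.q * c.Q * c.K)), ← hp0, ← Nat.cast_add]
        congr 1
        obtain ⟨m, hm⟩ : ∃ m, c.K = m + 1 := ⟨c.K - 1, by omega⟩
        generalize (c.lab (c.σσ X).val (c.vv X)).val = l
        rw [hm]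
        simp only [mul_add, Nat.add_sub_cancel, mul_one]
        omega)]
      exact Or.inr (Or.inr (Or.inl (by omega)))

theorem junta (X X' : ℕ → Bool) (h : ∀ j, j < c.n → c.S (c.φ X + j) → X' j = X j) :
    c.φ X' = c.φ X := by
  have hn := c.hn'
  have key : ∀ j, j < c.L → (c.B ≤ (c.σσ X).val → c.rd (sh j (c.vv X))) →
      (c.vv X').1 j = (c.vv X).1 j := by
    intro j hj hr
    obtain ⟨h1, h2⟩ := S_read X hj hr
    rw [vv_apply _ hj, vv_apply _ hj, h j (by omega) h1, h _ (by omega) h2]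
  have hy : c.yy (c.aa X) X' = c.yy (c.aa X) X := by
    apply win_congr
    intro i hi
    exact h _ (c.pos_lt _ hi) (S_ref X _ (c.pos_cast _ _))
  by_cases hB : c.B ≤ (c.σσ X).val
  · have hC : c.C (c.vv X) (c.vv X') := by
      apply c.h.junta
      apply agree_of_window (fun i => c.rd (sh i (c.vv X)))
      · intro i hi
        rw [← rd_mul _ (i / c.L), sh_sh, mul_comm, Int.mul_ediv_add_emod]; exact hi
      · intro i hi hr
        exact key i hi (fun _ => hr)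
    have h1 : c.aa X' = c.aa X := (c.h.C_Φ _ _ hC).symm
    exact φ_eq h1 (by rw [hy])
      ((c.s.cell _ hB _ _ (c.aa_eq X) (h1.trans (c.aa_eq X))).2 hC).symm
  · have : c.vv X' = c.vv X := ext_window c.h.Lpos (fun i hi => key i hi (fun h => absurd h hB))
    exact φ_eq (by unfold aa; rw [this]) (by rw [hy]) (by rw [this])

end Par

end Pool.Agent.P.MP_1a637f_co
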