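import Pool.Agent.P.MP_1a637f_co.Final

open Pool.Agent.P.MP_1a637f_co

/-- Negated form of Q1 for every alphabet of even size: for every `ε ∈ (0,1)` there are
infinitely many `n` admitting a nontrivial universal word with wild cards for `A^n`
with well-defined diamondicity `d > ε n`. -/
theorem Pool.Agent.Results.MP_1a637f_co.DiamondDensityOne.result
    (A : Type) [Fintype A] (h2 : 2 ≤ Fintype.card A) (hA : Even (Fintype.card A))
    (ε : ℝ) (h0 : 0 < ε) (h1 : ε < 1) :
    Set.Infinite {n : ℕ | ∃ (w : List (Option A)) (d : ℕ),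
      IsUniversal n w ∧ ¬ IsTrivial n w ∧ HasDiamondicity n w d ∧ ε * n < d} := by
  apply Set.infinite_of_forall_exists_gt
  intro n0
  obtain ⟨n, hn, h⟩ := main h2 hA ε h0 h1 (n0 + 1)
  exact ⟨n, h, by omega⟩
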