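import Pool.Agent.P.MP_1a637f_co.Tree

/-! The recursive step for virtual systems. -/

namespace Pool.Agent.P.MP_1a637f_co

open Classical V

section
variable {L q P ρ : ℕ} (b : V L → Bool) (Φ : V L → ZMod q) (C : V L → V L → Prop)
  (rd : V L → Prop)

/-- Root phase. -/
def rt (x : V (4 * L)) : ZMod 4 :=
  rt4 (b (blk 0 x)) (b (blk 1 x)) (b (blk 2 x)) (b (blk 3 x))

/-- New bit. -/
def b' (x : V (4 * L)) : Bool := par (rt b x)

/-- Index of the spine block. -/
def sp (a : ZMod 4) : ℤ := ((-1 - a).val : ℤ)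

/-- New clock. -/
def Φ' (x : V (4 * L)) : ZMod (4 * q) := comb (rt b x) (Φ (blk (sp (rt b x)) x))

/-- New cells. -/
def C' (x y : V (4 * L)) : Prop :=
  rt b x = rt b y ∧ ∀ c : ℤ, rt b x + c ≠ 0 → C (blk c x) (blk c y)

/-- New read positions. -/
def rd' (x : V (4 * L)) : Prop := rt b x ≠ 0 ∧ rd (blk 0 x)

theorem sp_succ : ∀ a : ZMod 4, sp (a + 1) + 1 = sp a + 4 * (if a = -1 then 1 else 0) := by
  decide

theorem sp_cast : ∀ a : ZMod 4, a + ((sp a - 3 : ℤ) : ZMod 4) = 0 := by decide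

variable {b Φ C rd}

theorem rt_sh1 (h : VS L q P ρ b Φ C rd) (x : V (4 * L)) : rt b (sh 1 x) = rt b x + 1 := by
  unfold rt
  simp only [blk_sh]
  rw [show (3 : ℤ) + 1 = 0 + 4 * 1 by norm_num, blk_add, h.b_sh]
  norm_num
  exact rt4_succ _ _ _ _

theorem rt_sh (h : VS L q P ρ b Φ C rd) (k : ℤ) (x : V (4 * L)) : rt b (sh k x) = rt b x + k :=
  clock_sh (rt_sh1 h) k x

theorem rt_iff (h : VS L q P ρ b Φ C rd) (c : ℤ) (x : V (4 * L)) : rt b x + c = 0 ↔
    (b (blk (c + 1) x) = b (blk (c + 2) x) ∧ b (blk (c + 3) x) = !b (blk (c + 1) x)) := by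
  rw [← rt_sh h, rt, rt4_zero]
  simp only [blk_sh, add_comm c]

theorem VS.C_b (h : VS L q P ρ b Φ C rd) {x y : V L} (hxy : C x y) : b x = b y :=
  h.Φ_b _ _ (h.C_Φ _ _ hxy)

theorem C'_iff (h : VS L q P ρ b Φ C rd) {c : ℤ} {x : V (4 * L)} (hc : rt b x + c = 0)
    (y : V (4 * L)) : C' b C x y ↔ True ∧ C (blk (c + 1) x) (blk (c + 1) y) ∧
      C (blk (c + 2) x) (blk (c + 2) y) ∧ C (blk (c + 3) x) (blk (c + 3) y) := by
  have hc' : rt b x = -c := eq_neg_of_add_eq_zero_left hc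
  constructor
  · rintro ⟨-, h2⟩
    refine ⟨trivial, h2 _ ?_, h2 _ ?_, h2 _ ?_⟩ <;> rw [hc'] <;> push_cast <;>
      rw [neg_add_cancel_left] <;> decide
  · rintro ⟨-, h1, h2, h3⟩
    have hy : rt b y + c = 0 := by
      rw [rt_iff h] at hc ⊢
      rw [← h.C_b h1, ← h.C_b h2, ← h.C_b h3]; exact hc
    refine ⟨by rw [hc', eq_neg_of_add_eq_zero_left hy], ?_⟩
    intro d hd
    have : (d - c) % 4 = 0 ∨ (d - c) % 4 = 1 ∨ (d - c) % 4 = 2 ∨ (d - c) % 4 = 3 := by omega
    rcases this with e | e | e | e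
    · exfalso
      apply hd
      rw [hc', show d = c + 4 * ((d - c) / 4) by omega]
      push_cast
      rw [show (4 : ZMod 4) = 0 by decide]; ring
    · rw [show d = c + 1 + 4 * ((d - c) / 4) by omega, blk_add, blk_add]; exact h.C_sh _ _ _ h1
    · rw [show d = c + 2 + 4 * ((d - c) / 4) by omega, blk_add, blk_add]; exact h.C_sh _ _ _ h2
    · rw [show d = c + 3 + 4 * ((d - c) / 4) by omega, blk_add, blk_add]; exact h.C_sh _ _ _ h3

theorem exists_c (a : ZMod 4) (d : ℤ) : ∃ c : ℤ, a + c = 0 ∧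
    (d = c ∨ d = c + 1 ∨ d = c + 2 ∨ d = c + 3) := by
  refine ⟨d - ((a + (d : ZMod 4)).val : ℤ), ?_, ?_⟩
  · push_cast
    rw [ZMod.natCast_zmod_val]; ring
  · have := ZMod.val_lt (a + (d : ZMod 4))
    omega

theorem C'_setBlk (h : VS L q P ρ b Φ C rd) (d : ℤ) (x : V (4 * L)) (z : V L)
    (hz : rt b x + d ≠ 0 → C (blk d x) z) : C' b C x (setBlk d x z) := by
  obtain ⟨c, hc, hd⟩ := exists_c (rt b x) d
  have hc' : rt b x = -c := eq_neg_of_add_eq_zero_left hc
  rw [C'_iff h hc]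
  rcases hd with rfl | rfl | rfl | rfl <;>
    simp (disch := omega) only [blk_setBlk, blk_setBlk_ne, h.C_refl, true_and, and_true] <;>
    apply hz <;> rw [hc'] <;> push_cast <;> rw [neg_add_cancel_left] <;> decide

theorem count_four (p : ℕ → Prop) (L : ℕ) : Nat.count p (4 * L) =
    Nat.count (fun m => p (4 * m)) L + Nat.count (fun m => p (4 * m + 1)) L +
    Nat.count (fun m => p (4 * m + 2)) L + Nat.count (fun m => p (4 * m + 3)) L := by
  induction L with
  | zero => simp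
  | succ L ih =>
    rw [show 4 * (L + 1) = 4 * L + 1 + 1 + 1 + 1 by ring]
    simp only [Nat.count_succ, ih]
    ring

theorem exists_edge (h : VS L q P ρ b Φ C rd) (β : Bool) :
    ∃ z j, b z = β ∧ b (flip j z) = !β := by
  have hx : ∃ x, b x = β ∧ b (sh 1 x) = !β := by
    let x : V L := win L h.Lpos (fun _ => false)
    by_cases hx : b x = β
    · exact ⟨x, hx, by rw [h.b_sh, hx]⟩
    · refine ⟨sh 1 x, ?_, ?_⟩
      · rw [h.b_sh]; revert hx; cases b x <;> cases β <;> simp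
      · rw [h.b_sh, h.b_sh]; revert hx; cases b x <;> cases β <;> simp
  obtain ⟨x, h1, h2⟩ := hx
  have hp := conn_univ h.Lpos x (sh 1 x) trivial trivial
  by_contra hne
  have : ∀ y, Path (fun _ => True) x y → b y = β := by
    intro y hy
    induction hy with
    | refl => exact h1
    | tail _ h' ih =>
      obtain ⟨-, -, j, rfl⟩ := h'
      by_contra hb
      exact hne ⟨_, j, ih, Bool.eq_not_iff.2 hb⟩
  rw [this _ hp] at h2
  simp at h2

theorem conn_b' (h : VS L q P ρ b Φ C rd) (β : Bool) : Conn (fun x => b' b x = β) := by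
  have lemA : ∀ x y, b' b x = β → b (blk 0 x) = b (blk 0 y) → b (blk 1 x) = b (blk 1 y) →
      b (blk 2 x) = b (blk 2 y) → b (blk 3 x) = b (blk 3 y) → Path (fun x => b' b x = β) x y := by
    intro x y hx h0 h1 h2 h3
    have := conn_prod 0 (h.conn_b (b (blk 0 x))) (h.conn_b (b (blk 1 x))) (h.conn_b (b (blk 2 x)))
      (h.conn_b (b (blk 3 x))) x y (by simp) (by simp [h0, h1, h2, h3])
    refine Path.mono ?_ this
    rintro z ⟨e0, e1, e2, e3⟩
    simp only [zero_add] at e1 e2 e3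
    rw [← hx]
    unfold b' rt
    rw [e0, e1, e2, e3]
  have lemB : ∀ (x : V (4 * L)) (d : ℤ), b' b x = β → ∃ z, b z = !b (blk d x) ∧
      (b' b (setBlk d x z) = β → (∀ w, b w = b (blk d x) → b (blk 0 x) = b (blk 0 (setBlk d x w)) ∧
        b (blk 1 x) = b (blk 1 (setBlk d x w)) ∧ b (blk 2 x) = b (blk 2 (setBlk d x w)) ∧
        b (blk 3 x) = b (blk 3 (setBlk d x w))) → Path (fun x => b' b x = β) x (setBlk d x z)) := by
    intro x d hx
    obtain ⟨z, j, h1, h2⟩ := exists_edge h (b (blk d x))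
    refine ⟨flip j z, h2, fun h3 h4 => ?_⟩
    obtain ⟨e0, e1, e2, e3⟩ := h4 z h1
    refine (lemA x _ hx e0 e1 e2 e3).tail ⟨?_, h3, _, setBlk_flip _ _ _ _⟩
    rw [← hx]
    unfold b' rt
    rw [e0, e1, e2, e3]
  have lemC : ∀ (m : ℕ) (x : V (4 * L)), b' b x = β →
      rk (b (blk 0 x)) (b (blk 1 x)) (b (blk 2 x)) (b (blk 3 x)) = m →
      ∃ y, b' b y = β ∧ rk (b (blk 0 y)) (b (blk 1 y)) (b (blk 2 y)) (b (blk 3 y)) = 0 ∧
        Path (fun x => b' b x = β) x y := by
    intro m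
    induction m using Nat.strong_induction_on with
    | _ m ih =>
    intro x hx hm
    have fin : ∀ d : ℤ, (∀ z, b z = !b (blk d x) → b' b (setBlk d x z) = β ∧
        rk (b (blk 0 (setBlk d x z))) (b (blk 1 (setBlk d x z))) (b (blk 2 (setBlk d x z)))
          (b (blk 3 (setBlk d x z))) < m) →
        (∀ w, b w = b (blk d x) → b (blk 0 x) = b (blk 0 (setBlk d x w)) ∧
        b (blk 1 x) = b (blk 1 (setBlk d x w)) ∧ b (blk 2 x) = b (blk 2 (setBlk d x w)) ∧
        b (blk 3 x) = b (blk 3 (setBlk d x w))) →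
        ∃ y, b' b y = β ∧ rk (b (blk 0 y)) (b (blk 1 y)) (b (blk 2 y)) (b (blk 3 y)) = 0 ∧
          Path (fun x => b' b x = β) x y := by
      intro d h1 h2
      obtain ⟨z, hz, hp⟩ := lemB x d hx
      obtain ⟨h3, h4⟩ := h1 z hz
      obtain ⟨y, hy1, hy2, hy3⟩ := ih _ h4 _ h3 rfl
      exact ⟨y, hy1, hy2, (hp h3 h2).trans hy3⟩
    rcases rk_desc (b (blk 0 x)) (b (blk 1 x)) (b (blk 2 x)) (b (blk 3 x)) with
      e | ⟨e, e'⟩ | ⟨e, e'⟩ | ⟨e, e'⟩ | ⟨e, e'⟩
    · exact ⟨x, hx, e, .refl⟩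
    · apply fin 0
      · intro z hz
        unfold b' rt at hx ⊢
        simp (disch := omega) only [blk_setBlk, blk_setBlk_ne, hz]
        exact ⟨e.trans hx, hm ▸ e'⟩
      · intro w hw
        simp (disch := omega) only [blk_setBlk, blk_setBlk_ne, hw, and_self]
    · apply fin 1
      · intro z hz
        unfold b' rt at hx ⊢
        simp (disch := omega) only [blk_setBlk, blk_setBlk_ne, hz]
        exact ⟨e.trans hx, hm ▸ e'⟩
      · intro w hw
        simp (disch := omega) only [blk_setBlk, blk_setBlk_ne, hw, and_self]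
    · apply fin 2
      · intro z hz
        unfold b' rt at hx ⊢
        simp (disch := omega) only [blk_setBlk, blk_setBlk_ne, hz]
        exact ⟨e.trans hx, hm ▸ e'⟩
      · intro w hw
        simp (disch := omega) only [blk_setBlk, blk_setBlk_ne, hw, and_self]
    · apply fin 3
      · intro z hz
        unfold b' rt at hx ⊢
        simp (disch := omega) only [blk_setBlk, blk_setBlk_ne, hz]
        exact ⟨e.trans hx, hm ▸ e'⟩
      · intro w hw
        simp (disch := omega) only [blk_setBlk, blk_setBlk_ne, hw, and_self]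
  intro x y hx hy
  obtain ⟨x1, a1, a2, a3⟩ := lemC _ x hx rfl
  obtain ⟨y1, c1, c2, c3⟩ := lemC _ y hy rfl
  obtain ⟨e0, e1, e2, e3⟩ := rk_zero _ _ _ _ _ _ _ _ a2 c2 (a1.trans c1.symm)
  exact (a3.trans (lemA x1 y1 a1 e0 e1 e2 e3)).trans c3.symm

theorem VS.step (h : VS L q P ρ b Φ C rd) :
    VS (4 * L) (4 * q) (4 * P) (3 * ρ) (b' b) (Φ' b Φ) (C' b C) (rd' b rd) := by
  have : NeZero q := ⟨h.qpos.ne'⟩
  have h4 : (4 : ZMod 4) = 0 := by decide
  refine
    { Lpos := by have := h.Lpos; omega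
      qpos := by have := h.qpos; omega
      b_sh := fun x => by unfold b'; rw [rt_sh1 h, par_succ]
      Φ_sh := ?_
      Φ_b := fun x y hxy => by unfold b'; rw [(comb_inj hxy).1]
      C_refl := fun x => ⟨rfl, fun c _ => h.C_refl _⟩
      C_symm := fun x y ⟨h1, h2⟩ => ⟨h1.symm, fun c hc => h.C_symm _ _ (h2 c (h1 ▸ hc))⟩
      C_trans := fun x y z ⟨h1, h2⟩ ⟨h3, h4⟩ =>
        ⟨h1.trans h3, fun c hc => h.C_trans _ _ _ (h2 c hc) (h4 c (h1 ▸ hc))⟩
      C_sh := ?_
      C_Φ := ?_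
      C_rd := fun x y ⟨h1, h2⟩ ⟨h3, h4⟩ =>
        ⟨h1 ▸ h3, h.C_rd _ _ (h2 0 (by simpa using h3)) h4⟩
      C_P := ?_
      rd_L := ?_
      junta := ?_
      conn_b := conn_b' h
      conn_Φ := ?_
      conn_C := ?_
      flippable := ?_
      card_C := ?_
      count := ?_ }
  · intro x
    unfold Φ'
    rw [rt_sh1 h, blk_sh, sp_succ, blk_add, ← comb_succ]
    split_ifs
    · rw [h.Φ_sh]
    · rw [sh_zero]
  · rintro k x y ⟨h1, h2⟩
    refine ⟨by rw [rt_sh h, rt_sh h, h1], fun c hc => ?_⟩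
    rw [blk_sh, blk_sh]
    apply h2
    rw [rt_sh h] at hc
    push_cast
    rwa [add_comm (c : ZMod 4), ← add_assoc]
  · rintro x y hxy
    have := ((C'_iff h (sp_cast (rt b x)) y).1 hxy).2.2.2
    rw [sub_add_cancel] at this
    unfold Φ'
    rw [← hxy.1, h.C_Φ _ _ this]
  · intro x
    refine ⟨?_, fun c _ => ?_⟩
    · rw [rt_sh h]; push_cast; rw [h4]; simp
    · rw [blk_sh]; push_cast; rw [blk_add]; exact h.C_P _
  · intro x
    unfold rd'
    rw [rt_sh h, blk_sh]; push_cast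
    rw [h4, blk_add, h.rd_L]; simp
  · intro x y hxy
    have key : ∀ d : ℤ, rt b x + d ≠ 0 → C (blk d x) (blk d y) := by
      intro d hd
      apply h.junta
      intro i hi
      apply hxy
      refine ⟨?_, ?_⟩
      · rw [rt_sh h]; push_cast; rw [h4]; simpa using hd
      · rw [blk_sh, show 0 + (4 * i + d) = d + 4 * i by ring, blk_add]; exact hi
    have hc := sp_cast (rt b x)
    have hc' : rt b x = -((sp (rt b x) - 3 : ℤ) : ZMod 4) := eq_neg_of_add_eq_zero_left hc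
    rw [C'_iff h hc]
    generalize sp (rt b x) - 3 = c at hc'
    refine ⟨trivial, key _ ?_, key _ ?_, key _ ?_⟩ <;> rw [hc'] <;> push_cast <;>
      rw [neg_add_cancel_left] <;> decide
  · intro r x y hx hy
    obtain ⟨e1, e2⟩ := comb_inj (hx.trans hy.symm)
    rw [← e1] at e2
    have hc := sp_cast (rt b x)
    have hcy := hc
    rw [e1] at hcy
    rw [← e1] at hcy
    have hs : sp (rt b x) = sp (rt b x) - 3 + 3 := by ring
    generalize sp (rt b x) - 3 = c at hc hs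
    have hcy : rt b y + c = 0 := e1 ▸ hc
    rw [hs] at e2
    have hb := h.Φ_b _ _ e2
    obtain ⟨f1, f2⟩ := (rt_iff h c x).1 hc
    obtain ⟨g1, g2⟩ := (rt_iff h c y).1 hcy
    have k1 : b (blk (c + 1) y) = b (blk (c + 1) x) := by
      rw [f2, g2] at hb; simpa using hb.symm
    have := conn_prod c (conn_univ h.Lpos) (h.conn_b (b (blk (c + 1) x)))
      (h.conn_b (b (blk (c + 2) x))) (h.conn_Φ (Φ (blk (c + 3) x))) x y (by simp)
      ⟨trivial, k1, by rw [← g1, k1, f1], e2.symm⟩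
    refine Path.mono ?_ this
    rintro z ⟨-, z1, z2, z3⟩
    have hz : rt b z + c = 0 := by
      rw [rt_iff h, z1, z2, h.Φ_b _ _ z3]; exact ⟨f1, f2⟩
    have hz' : rt b z = rt b x := by
      rw [eq_neg_of_add_eq_zero_left hz, eq_neg_of_add_eq_zero_left hc]
    rw [← hx]
    unfold Φ'
    rw [hz', hs, z3]
  · intro x y z hy hz
    have hc := sp_cast (rt b x)
    generalize sp (rt b x) - 3 = c at hc
    have := conn_prod c (conn_univ h.Lpos) (h.conn_C (blk (c + 1) x))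
      (h.conn_C (blk (c + 2) x)) (h.conn_C (blk (c + 3) x)) y z ((C'_iff h hc y).1 hy)
      ((C'_iff h hc z).1 hz)
    exact Path.mono (fun w hw => (C'_iff h hc w).2 hw) this
  · intro x j
    obtain ⟨y, h1, h2⟩ := h.flippable (blk j x) 0
    refine ⟨setBlk j x y, C'_setBlk h _ _ _ (fun _ => h1), ?_⟩
    have := setBlk_flip j 0 x y
    rw [mul_zero, zero_add] at this
    rw [← this]
    exact C'_setBlk h _ _ _ (fun _ => h2)
  · obtain ⟨s, hs⟩ := h.card_C
    refine ⟨Nat.card (V L) * (s * (s * s)), fun x => ?_⟩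
    have hc := sp_cast (rt b x)
    generalize sp (rt b x) - 3 = c at hc
    conv_rhs => rw [← hs (blk (c + 1) x)]
    conv_rhs => enter [2, 2]; rw [hs (blk (c + 1) x)]
    conv_rhs => enter [2, 2, 1]; rw [← hs (blk (c + 2) x)]
    conv_rhs => enter [2, 2, 2]; rw [← hs (blk (c + 3) x)]
    rw [← Nat.card_prod, ← Nat.card_prod, ← Nat.card_prod]
    refine Nat.card_eq_of_bijective (fun y => (blk c y.1,
      ⟨blk (c + 1) y.1, ((C'_iff h hc y.1).1 y.2).2.1⟩,
      ⟨blk (c + 2) y.1, ((C'_iff h hc y.1).1 y.2).2.2.1⟩,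
      ⟨blk (c + 3) y.1, ((C'_iff h hc y.1).1 y.2).2.2.2⟩)) ⟨?_, ?_⟩
    · intro y z hyz
      simp only [Prod.mk.injEq, Subtype.mk.injEq] at hyz
      exact Subtype.ext (blk_ext c hyz.1 hyz.2.1 hyz.2.2.1 hyz.2.2.2)
    · rintro ⟨y0, ⟨y1, p1⟩, ⟨y2, p2⟩, ⟨y3, p3⟩⟩
      have := (equivBlk c x).right_inv (y0, y1, y2, y3)
      simp only [equivBlk, Prod.mk.injEq] at this
      obtain ⟨e0, e1, e2, e3⟩ := this
      refine ⟨⟨glue c x (y0, y1, y2, y3), ?_⟩, ?_⟩
      · rw [C'_iff h hc, e1, e2, e3]; exact ⟨trivial, p1, p2, p3⟩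
      · simp only [Prod.mk.injEq, Subtype.mk.injEq]
        exact ⟨e0, e1, e2, e3⟩
  · intro x
    rw [count_four]
    have key : ∀ t : ℕ, Nat.count (fun m : ℕ => rd' b rd (sh ((4 * m + t : ℕ) : ℤ) x)) L ≤
        if rt b x + t = 0 then 0 else ρ := by
      intro t
      have e : ∀ m : ℕ, rd' b rd (sh ((4 * m + t : ℕ) : ℤ) x) ↔
          (rt b x + t ≠ 0 ∧ rd (sh m (blk t x))) := by
        intro m
        unfold rd'
        rw [rt_sh h, blk_sh, ← blk_add]
        push_cast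
        rw [h4, show 0 + (4 * (m : ℤ) + t) = t + 4 * m by ring]
        simp
      split_ifs with ht
      · rw [Nat.le_zero, Nat.count_iff_forall_not]
        intro m _ hm
        exact ((e m).1 hm).1 ht
      · refine le_trans (Nat.count_mono_left (fun m _ hm => ((e m).1 hm).2)) (h.count _)
    have k0 := key 0
    have k1 := key 1
    have k2 := key 2
    have k3 := key 3
    simp only [add_zero] at k0
    have : ∀ a : ZMod 4, (if a + ((0 : ℕ) : ZMod 4) = 0 then 0 else ρ) +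
        (if a + ((1 : ℕ) : ZMod 4) = 0 then 0 else ρ) + (if a + ((2 : ℕ) : ZMod 4) = 0 then 0 else ρ)
        + (if a + ((3 : ℕ) : ZMod 4) = 0 then 0 else ρ) = 3 * ρ := by
      intro a
      have : a = 0 ∨ a = 1 ∨ a = 2 ∨ a = 3 := by revert a; decide
      rcases this with rfl | rfl | rfl | rfl
      · rw [if_pos (by decide), if_neg (by decide), if_neg (by decide), if_neg (by decide)]; ring
      · rw [if_neg (by decide), if_neg (by decide), if_neg (by decide), if_pos (by decide)]; ring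
      · rw [if_neg (by decide), if_neg (by decide), if_pos (by decide), if_neg (by decide)]; ring
      · rw [if_neg (by decide), if_pos (by decide), if_neg (by decide), if_neg (by decide)]; ring
    have := this (rt b x)
    omega

theorem VS.unread (h : VS L q P ρ b Φ C rd) (x : V (4 * L)) (hx : Φ' b Φ x - 1 = -1) :
    ¬ rd' b rd x := by
  have : NeZero q := ⟨h.qpos.ne'⟩
  intro hr
  have : comb (0 : ZMod 4) (0 : ZMod q) = 0 := by simp [comb]
  have hx' : Φ' b Φ x = 0 := by simpa using hx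
  exact hr.1 (comb_inj (hx'.trans this.symm)).1

theorem VS.shift (h : VS L q P ρ b Φ C rd) : VS L q P ρ b (fun x => Φ x - 1) C rd :=
  { h with
    Φ_sh := fun x => by rw [h.Φ_sh]; ring
    Φ_b := fun x y hxy => h.Φ_b _ _ (by simpa using hxy)
    C_Φ := fun x y hxy => by rw [h.C_Φ _ _ hxy]
    conn_Φ := fun r => by
      have := h.conn_Φ (r + 1)
      simpa only [sub_eq_iff_eq_add] using this }

end

/-- Existence of a virtual system with the given parameters. -/
def HasVS (L q P ρ : ℕ) : Prop := ∃ b Φ C rd, VS L q P ρ b Φ C rd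

theorem hasVS_two (j : ℕ) : HasVS (3 * 4 ^ j) 2 (2 * 4 ^ j) (3 * 3 ^ j) := by
  induction j with
  | zero => exact ⟨_, _, _, _, VS.base⟩
  | succ j ih =>
    obtain ⟨b, Φ, C, rd, h⟩ := ih
    have : HasVS (4 * (3 * 4 ^ j)) 2 (4 * (2 * 4 ^ j)) (3 * (3 * 3 ^ j)) :=
      ⟨_, _, _, _, h.step.reset⟩
    convert this using 1 <;> ring

theorem hasVS (j k : ℕ) : HasVS (3 * 4 ^ (j + k)) (2 * 4 ^ k) (2 * 4 ^ (j + k)) (3 * 3 ^ (j + k)) := by
  induction k with
  | zero => exact hasVS_two j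
  | succ k ih =>
    obtain ⟨b, Φ, C, rd, h⟩ := ih
    have : HasVS _ _ _ _ := ⟨_, _, _, _, h.step⟩
    convert this using 1 <;> ring

/-- Virtual system with an unread residue class. -/
def HasVSU (L q P ρ : ℕ) : Prop :=
  ∃ b Φ C rd, VS L q P ρ b Φ C rd ∧ ∀ x, Φ x = -1 → ¬ rd x

theorem hasVSU (k : ℕ) :
    HasVSU (3 * 4 ^ (k + 2)) (2 * 4 ^ (k + 1)) (2 * 4 ^ (k + 2)) (3 * 3 ^ (k + 2)) := by
  obtain ⟨b, Φ, C, rd, h⟩ := hasVS 1 k
  have : HasVSU _ _ _ _ := ⟨_, _, _, _, h.step.shift, h.unread⟩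
  convert this using 1 <;> ring

end Pool.Agent.P.MP_1a637f_co
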