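import Pool.Agent.P.MP_1a637f_co.Cube

/-! The tree of four-block gadgets on a virtual window. -/

namespace Pool.Agent.P.MP_1a637f_co

open Classical V

/-- Two-digit number `a + q k`. -/
def comb {q K : ℕ} (a : ZMod q) (k : ZMod K) : ZMod (q * K) := ((a.val + q * k.val : ℕ) : ZMod (q * K))

theorem comb_lt {q K : ℕ} [NeZero q] [NeZero K] (a : ZMod q) (k : ZMod K) :
    a.val + q * k.val < q * K := by
  have h1 := ZMod.val_lt a
  have h2 := ZMod.val_lt k
  calc a.val + q * k.val < q + q * k.val := by omega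
    _ = q * (k.val + 1) := by ring
    _ ≤ q * K := Nat.mul_le_mul_left _ h2

theorem comb_val {q K : ℕ} [NeZero q] [NeZero K] (a : ZMod q) (k : ZMod K) :
    (comb a k).val = a.val + q * k.val := ZMod.val_natCast_of_lt (comb_lt a k)

theorem comb_inj {q K : ℕ} [NeZero q] [NeZero K] {a a' : ZMod q} {k k' : ZMod K}
    (h : comb a k = comb a' k') : a = a' ∧ k = k' := by
  have h1 := congrArg ZMod.val h
  rw [comb_val, comb_val] at h1
  have h2 : a.val = a'.val := by
    have := congrArg (· % q) h1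
    simpa [Nat.mod_eq_of_lt (ZMod.val_lt a), Nat.mod_eq_of_lt (ZMod.val_lt a')] using this
  refine ⟨ZMod.val_injective _ h2, ZMod.val_injective _ ?_⟩
  rw [h2] at h1
  exact Nat.eq_of_mul_eq_mul_left (NeZero.pos q) (by omega)

theorem comb_cast {q K : ℕ} [NeZero q] [NeZero K] (a : ZMod q) (k : ZMod K) :
    (((comb a k).val : ℕ) : ZMod q) = a := by
  rw [comb_val]; simp

theorem val_succ {q : ℕ} [NeZero q] (a : ZMod q) : (a + 1).val = (a.val + 1) % q := by
  rw [ZMod.val_add, ZMod.val_one_eq_one_mod]; simp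

theorem eq_neg_one_iff {q : ℕ} [NeZero q] (a : ZMod q) : a = -1 ↔ a.val + 1 = q := by
  have h1 := ZMod.val_lt a
  rw [← add_eq_zero_iff_eq_neg, ← ZMod.val_eq_zero, val_succ]
  constructor
  · intro h
    by_contra h'
    rw [Nat.mod_eq_of_lt (by omega)] at h
    omega
  · intro h; rw [h]; simp

theorem val_succ_of_ne {q : ℕ} [NeZero q] {a : ZMod q} (h : a ≠ -1) : (a + 1).val = a.val + 1 := by
  have h1 := ZMod.val_lt a
  rw [Ne, eq_neg_one_iff] at h
  rw [val_succ, Nat.mod_eq_of_lt (by omega)]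

theorem comb_succ {q K : ℕ} [NeZero q] [NeZero K] (a : ZMod q) (k : ZMod K) :
    comb (a + 1) (if a = -1 then k + 1 else k) = comb a k + 1 := by
  unfold comb
  split_ifs with h
  · have h' := (eq_neg_one_iff a).1 h
    rw [h, neg_add_cancel, ZMod.val_zero, val_succ, ← h, zero_add, ← Nat.mul_mod_mul_left,
      ZMod.natCast_mod, ← Nat.cast_succ]
    congr 1
    rw [mul_add]; omega
  · rw [val_succ_of_ne h, ← Nat.cast_succ]
    congr 1; omega

/-- Root phase of four bits, read off the cyclic word `001◇110◇`. -/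
def rt4 (u0 u1 u2 u3 : Bool) : ZMod 4 :=
  if u1 = u2 ∧ u3 = !u1 then 0 else if u0 = u1 ∧ u2 = !u0 then 1
  else if u1 = !u0 ∧ u3 = u1 then 2 else 3

theorem rt4_succ : ∀ u0 u1 u2 u3, rt4 u1 u2 u3 (!u0) = rt4 u0 u1 u2 u3 + 1 := by decide

theorem rt4_zero : ∀ u0 u1 u2 u3, rt4 u0 u1 u2 u3 = 0 ↔ (u1 = u2 ∧ u3 = !u1) := by decide

/-- Parity. -/
def par (a : ZMod 4) : Bool := decide (a = 1 ∨ a = 3)

theorem par_succ : ∀ a, par (a + 1) = !par a := by decide

/-- Distance to a base point in the fibres of `par ∘ rt4`. -/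
def rk : Bool → Bool → Bool → Bool → ℕ
  | false, false, true, false => 0
  | false, false, true, true => 1
  | true, false, true, true => 2
  | true, true, true, true => 3
  | true, true, false, true => 4
  | false, false, false, false => 1
  | false, true, false, false => 2
  | true, true, false, false => 3
  | false, true, true, false => 0
  | false, true, true, true => 1
  | false, true, false, true => 2
  | false, false, false, true => 3
  | true, false, false, true => 4
  | true, true, true, false => 1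
  | true, false, true, false => 2
  | true, false, false, false => 3

theorem rk_desc : ∀ u0 u1 u2 u3, rk u0 u1 u2 u3 = 0 ∨
    (par (rt4 (!u0) u1 u2 u3) = par (rt4 u0 u1 u2 u3) ∧ rk (!u0) u1 u2 u3 < rk u0 u1 u2 u3) ∨
    (par (rt4 u0 (!u1) u2 u3) = par (rt4 u0 u1 u2 u3) ∧ rk u0 (!u1) u2 u3 < rk u0 u1 u2 u3) ∨
    (par (rt4 u0 u1 (!u2) u3) = par (rt4 u0 u1 u2 u3) ∧ rk u0 u1 (!u2) u3 < rk u0 u1 u2 u3) ∨
    (par (rt4 u0 u1 u2 (!u3)) = par (rt4 u0 u1 u2 u3) ∧ rk u0 u1 u2 (!u3) < rk u0 u1 u2 u3) := by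
  decide

theorem rk_zero : ∀ u0 u1 u2 u3 w0 w1 w2 w3, rk u0 u1 u2 u3 = 0 → rk w0 w1 w2 w3 = 0 →
    par (rt4 u0 u1 u2 u3) = par (rt4 w0 w1 w2 w3) → u0 = w0 ∧ u1 = w1 ∧ u2 = w2 ∧ u3 = w3 := by
  decide

/-- A virtual system: bit `b`, clock `Φ`, cells `C` and read positions `rd`. -/
structure VS (L q P ρ : ℕ) (b : V L → Bool) (Φ : V L → ZMod q) (C : V L → V L → Prop)
    (rd : V L → Prop) : Prop where
  Lpos : 0 < L
  qpos : 0 < q
  b_sh : ∀ x, b (sh 1 x) = !b x
  Φ_sh : ∀ x, Φ (sh 1 x) = Φ x + 1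
  Φ_b : ∀ x y, Φ x = Φ y → b x = b y
  C_refl : ∀ x, C x x
  C_symm : ∀ x y, C x y → C y x
  C_trans : ∀ x y z, C x y → C y z → C x z
  C_sh : ∀ k x y, C x y → C (sh k x) (sh k y)
  C_Φ : ∀ x y, C x y → Φ x = Φ y
  C_rd : ∀ x y, C x y → rd x → rd y
  C_P : ∀ x, C x (sh P x)
  rd_L : ∀ x, rd (sh L x) ↔ rd x
  junta : ∀ x y, (∀ i, rd (sh i x) → y.1 i = x.1 i) → C x y
  conn_b : ∀ β, Conn (fun x => b x = β)
  conn_Φ : ∀ r, Conn (fun x => Φ x = r)
  conn_C : ∀ x, Conn (C x)
  flippable : ∀ x j, ∃ y, C x y ∧ C x (flip j y)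
  card_C : ∃ s, ∀ x, Nat.card {y // C x y} = s
  count : ∀ x, Nat.count (fun i : ℕ => rd (sh i x)) L ≤ ρ

theorem clock_sh {L q : ℕ} {Φ : V L → ZMod q} (h : ∀ x, Φ (sh 1 x) = Φ x + 1) (k : ℤ) (x : V L) :
    Φ (sh k x) = Φ x + k := by
  induction k using Int.induction_on with
  | zero => simp
  | succ k ih => rw [add_comm (k : ℤ) 1, ← sh_sh, h, ih]; push_cast; ring
  | pred k ih =>
    have := h (sh (-(k : ℤ) - 1) x)
    rw [sh_sh, show (1 : ℤ) + (-(k : ℤ) - 1) = -k by ring, ih] at this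
    rw [eq_sub_of_add_eq this.symm]; push_cast; ring

/-- The bit as a clock of period two. -/
def bclock {L : ℕ} (b : V L → Bool) (x : V L) : ZMod 2 := if b x then 1 else 0

theorem bclock_eq {L : ℕ} (b : V L → Bool) (x y : V L) : bclock b x = bclock b y ↔ b x = b y := by
  unfold bclock
  cases b x <;> cases b y <;> decide

theorem bclock_sh {L : ℕ} {b : V L → Bool} (h : ∀ x, b (sh 1 x) = !b x) (x : V L) :
    bclock b (sh 1 x) = bclock b x + 1 := by
  unfold bclock
  rw [h]
  cases b x <;> decide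

theorem bclock_conn {L : ℕ} {b : V L → Bool} (h : ∀ β, Conn (fun x => b x = β)) (r : ZMod 2) :
    Conn (fun x => bclock b x = r) := by
  intro x y hx hy
  refine Path.mono ?_ (h (b x) x y rfl ((bclock_eq b y x).1 (hy.trans hx.symm)))
  intro z hz
  exact ((bclock_eq b z x).2 hz).trans hx

theorem VS.reset {L q P ρ : ℕ} {b : V L → Bool} {Φ : V L → ZMod q} {C : V L → V L → Prop}
    {rd : V L → Prop} (h : VS L q P ρ b Φ C rd) : VS L 2 P ρ b (bclock b) C rd :=
  { h with
    qpos := by norm_num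
    Φ_sh := bclock_sh h.b_sh
    Φ_b := fun x y hxy => (bclock_eq b x y).1 hxy
    C_Φ := fun x y hxy => (bclock_eq b x y).2 (h.Φ_b _ _ (h.C_Φ _ _ hxy))
    conn_Φ := bclock_conn h.conn_b }

/-- Majority. -/
def maj (a b c : Bool) : Bool := (a && b) || (a && c) || (b && c)

/-- The base bit. -/
def b0 (x : V 3) : Bool := maj (x.1 0) (!x.1 1) (x.1 2)

/-- Centre of a base cell. -/
def ctr (β : Bool) : V 3 := win 3 (by norm_num) (fun i => if i = 1 then !β else β)

theorem ctr0 (β : Bool) : (ctr β).1 0 = β := by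
  have := win_apply (L := 3) (by norm_num) (fun i => if i = 1 then !β else β) (i := 0) (by norm_num)
  simpa [ctr] using this

theorem ctr1 (β : Bool) : (ctr β).1 1 = !β := by
  have := win_apply (L := 3) (by norm_num) (fun i => if i = 1 then !β else β) (i := 1) (by norm_num)
  simpa [ctr] using this

theorem ctr2 (β : Bool) : (ctr β).1 2 = β := by
  have := win_apply (L := 3) (by norm_num) (fun i => if i = 1 then !β else β) (i := 2) (by norm_num)
  simpa [ctr] using this

theorem b0_ctr (β : Bool) : b0 (ctr β) = β := by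
  unfold b0; rw [ctr0, ctr1, ctr2]; cases β <;> rfl

theorem b0_flip_ctr (β : Bool) (j : ℤ) : b0 (flip j (ctr β)) = β := by
  unfold b0
  simp only [flip_apply, ctr0, ctr1, ctr2]
  split_ifs <;> first | (exfalso; omega) | (cases β <;> rfl)

theorem ext3 {x y : V 3} (h0 : x.1 0 = y.1 0) (h1 : x.1 1 = y.1 1) (h2 : x.1 2 = y.1 2) : x = y := by
  apply ext_window (by norm_num)
  intro i hi
  interval_cases i
  · exact h0
  · exact h1
  · exact h2

theorem b0_sh (x : V 3) : b0 (sh 1 x) = !b0 x := by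
  unfold b0
  have := x.2 0
  simp only [sh_apply]
  norm_num at this ⊢
  rw [this]
  cases x.1 0 <;> cases x.1 1 <;> cases x.1 2 <;> rfl

theorem b0_conn (β : Bool) : Conn (fun x => b0 x = β) := by
  have key : ∀ x, b0 x = β → Path (fun x => b0 x = β) (ctr β) x := by
    intro x hx
    have hstep : ∀ j : ℤ, x = flip j (ctr β) → Path (fun x => b0 x = β) (ctr β) x :=
      fun j hj => Relation.ReflTransGen.single ⟨b0_ctr β, hx, j, hj⟩
    by_cases h0 : x.1 0 = β
    · by_cases h1 : x.1 1 = !β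
      · by_cases h2 : x.1 2 = β
        · rw [ext3 (h0.trans (ctr0 β).symm) (h1.trans (ctr1 β).symm) (h2.trans (ctr2 β).symm)]
          exact .refl
        · apply hstep 2
          apply ext3 <;> simp only [flip_apply, ctr0, ctr1, ctr2] <;> norm_num
          · exact h0
          · exact h1
          · exact Bool.eq_not_iff.2 h2
      · apply hstep 1
        have h2 : x.1 2 = β := by
          unfold b0 at hx
          revert hx h0 h1
          cases x.1 0 <;> cases x.1 1 <;> cases x.1 2 <;> cases β <;> simp [maj]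
        apply ext3 <;> simp only [flip_apply, ctr0, ctr1, ctr2] <;> norm_num
        · exact h0
        · simpa using h1
        · exact h2
    · apply hstep 0
      have h2 : x.1 1 = !β ∧ x.1 2 = β := by
        unfold b0 at hx
        revert hx h0
        cases x.1 0 <;> cases x.1 1 <;> cases x.1 2 <;> cases β <;> simp [maj]
      apply ext3 <;> simp only [flip_apply, ctr0, ctr1, ctr2] <;> norm_num
      · exact Bool.eq_not_iff.2 h0
      · exact h2.1
      · exact h2.2
  intro x y hx hy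
  exact (key x hx).symm.trans (key y hy)

/-- Shift as a permutation. -/
def shEquiv {L : ℕ} (k : ℤ) : V L ≃ V L where
  toFun := sh k
  invFun := sh (-k)
  left_inv x := by rw [sh_sh]; simp
  right_inv x := by rw [sh_sh]; simp

theorem VS.base : VS 3 2 2 3 b0 (bclock b0) (fun x y => b0 x = b0 y) (fun _ => True) where
  Lpos := by norm_num
  qpos := by norm_num
  b_sh := b0_sh
  Φ_sh := bclock_sh b0_sh
  Φ_b := fun x y h => (bclock_eq b0 x y).1 h
  C_refl := fun _ => rfl
  C_symm := fun _ _ h => h.symm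
  C_trans := fun _ _ _ h h' => h.trans h'
  C_sh := fun k x y h => by
    rw [← bclock_eq] at h ⊢
    rw [clock_sh (bclock_sh b0_sh), clock_sh (bclock_sh b0_sh), h]
  C_Φ := fun x y h => (bclock_eq b0 x y).2 h
  C_rd := fun _ _ _ _ => trivial
  C_P := fun x => by
    rw [show ((2 : ℕ) : ℤ) = 1 + 1 by norm_num, ← sh_sh, b0_sh, b0_sh]; simp
  rd_L := fun _ => Iff.rfl
  junta := fun x y h => by rw [ext' (fun i => h i trivial)]
  conn_b := b0_conn
  conn_Φ := bclock_conn b0_conn
  conn_C := fun x y z hy hz =>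
    Path.mono (fun _ h => h.symm) (b0_conn (b0 x) y z hy.symm hz.symm)
  flippable := fun x j => ⟨ctr (b0 x), (b0_ctr _).symm, (b0_flip_ctr _ _).symm⟩
  card_C := by
    refine ⟨Nat.card {y // true = b0 y}, fun x => ?_⟩
    cases b0 x
    · refine Nat.card_congr (Equiv.subtypeEquiv (shEquiv 1) (fun y => ?_))
      show false = b0 y ↔ true = b0 (sh 1 y)
      rw [b0_sh]; cases b0 y <;> simp
    · rfl
  count := fun _ => @Nat.count_le _ (_) _

end Pool.Agent.P.MP_1a637f_co
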